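import Pool.Agent.H97.FC.Defs
import Pool.Agent.H8.NoPt.Gelf
import Pool.Agent.H97.NW.IRQ
import Pool.Agent.H97.NW.FCT
import Pool.Agent.H97.NW.PGZ

/-! # [H4 SX FCX] A point of a reducible curve lies on an irreducible factor of small height

`G ∈ ℤ[x, y]`, `G ≠ 0`, `vl G x y = 0` (`vl G x y = MvPolynomial.eval₂ (Int.castRingHom S) ![x, y] G`, a ring hom in `G`, cf.
`vl_eq`, `Pool/Agent/H34/AC`). `MvPolynomial (Fin 2) ℤ` is a UFD: by induction on the factorisation
(`UniqueFactorizationMonoid.induction_on_prime` or `WfDvdMonoid.exists_irreducible_factor`), some irreducible `F ∣ G` has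
`vl F x y = 0` (a unit is `± 1`, its value is not zero).
`Irreducible (map ℚ F)`: `F` is prime and not constant (a non-zero constant has non-zero value). Suppose
`map F = A B` in `ℚ[x, y]`; clear denominators: `C N * F = A' * B'` in `ℤ[x, y]`, `N ≠ 0`; `F` is prime, say `F ∣ A'`,
`A' = F D`, so `C N = D B'` and `B'` has total degree `0`, so `B` is a non-zero constant, a unit. `map F` is not a unit
because its total degree is positive.
Height: `G = F R`. `φ : ℤ[x,y] → ℤ[X]`, `x ↦ X`, `y ↦ X^(n+1)` (`aeval`): for total degree `≤ n` the coefficient of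
`X^(i + (n+1) k)` of `φ P` is the coefficient of `x^i y^k` of `P` (`i, k ≤ n`). `Pool.Agent.H8.NoPt.gelfond` for
`φ F * φ R = φ G`, `N0 = (n + 1)^2`: `|coeff F| |coeff R| ≤ 2^N0 (N0 + 1) H`, some coefficient of `R` has absolute value
`≥ 1`, and `2^N0 (N0+1) H ≤ H^(2 N0 + 1)` as `H ≥ 2`. Total degrees: `MvPolynomial.totalDegree_mul_of_isDomain`.
`hy`: if `G` has total degree `≤ n` and contains `y^n` (`G.coeff (single 1 n) ≠ 0`), then `F` contains `y`: otherwise
`F ∈ ℤ[x]`, not constant; the part of degree `n` in `G` is the product of the leading forms of `F` and `R`; put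
`x = 0` in it: `(leading form of F)(0, y) = 0` (a form of positive degree in `x` alone), but the left side is
`G.coeff (single 1 n) y^n ≠ 0`. (Or: `deg_y G = n` and `deg_y R ≤ totalDegree R < n`.) The last argument is the
shortest: `degreeOf 1 G ≥ n`, `degreeOf 1 G ≤ degreeOf 1 F + degreeOf 1 R`, `degreeOf 1 F = 0`,
`degreeOf 1 R ≤ R.totalDegree = G.totalDegree - F.totalDegree < n`. -/

namespace Pool.Agent.H4.SX

open Finset Polynomial Pool.Agent.H34.AC Pool.Agent.H97.NW Pool.Agent.H72.ES H4AR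

private theorem fcx_tot {n : ℕ} {G : MvPolynomial (Fin 2) ℤ} (h : G.totalDegree ≤ n)
    (e : Fin 2 →₀ ℕ) (he : G.coeff e ≠ 0) : e 0 + e 1 ≤ n := by
  have h1 := MvPolynomial.le_totalDegree (MvPolynomial.mem_support_iff.2 he)
  rw [Finsupp.sum_fintype _ _ (fun _ => rfl), Fin.sum_univ_two] at h1
  exact h1.trans h

/-- the sum of the coefficients -/
private theorem fcx_l1 {n H : ℕ} {G : MvPolynomial (Fin 2) ℤ} (h : G.totalDegree ≤ n)
    (hH : ∀ e, |G.coeff e| ≤ (H : ℤ)) : l1 G ≤ ((n + 1) ^ 2 * H : ℕ) := by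
  classical
  unfold l1
  have h1 : G.support ⊆ (range (n + 1) ×ˢ range (n + 1)).image
      (fun x => (Finsupp.single 0 x.1 + Finsupp.single 1 x.2 : Fin 2 →₀ ℕ)) := by
    intro e he
    have h2 := fcx_tot h e (MvPolynomial.mem_support_iff.1 he)
    rw [mem_image]
    refine ⟨(e 0, e 1), ?_, ?_⟩
    · rw [mem_product, mem_range, mem_range]
      constructor <;> simp only <;> omega
    · ext v
      fin_cases v <;> simp
  have h2 : G.support.card ≤ (n + 1) ^ 2 := by
    refine (card_le_card h1).trans (card_image_le.trans ?_)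
    rw [card_product, card_range, sq]
  calc ∑ e ∈ G.support, |((MvPolynomial.coeff e G : ℤ) : ℝ)| ≤ ∑ e ∈ G.support, (H : ℝ) := by
        refine sum_le_sum fun e _ => ?_
        exact_mod_cast hH e
    _ = G.support.card * H := by rw [sum_const, nsmul_eq_mul]
    _ ≤ ((n + 1) ^ 2 * H : ℕ) := by
        push_cast
        refine mul_le_mul_of_nonneg_right ?_ (Nat.cast_nonneg H)
        exact_mod_cast h2

theorem fac_point (n : ℕ) (hn : 1 ≤ n) : ∃ c : ℕ, ∀ (G : MvPolynomial (Fin 2) ℤ) (H : ℕ), 2 ≤ H →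
    G.totalDegree ≤ n → G.coeff (Finsupp.single 1 n) ≠ 0 → (∀ e, |G.coeff e| ≤ (H : ℤ)) →
    ∀ x y : ℤ, vl G x y = 0 → ∃ F : MvPolynomial (Fin 2) ℤ, F ∣ G ∧
      Irreducible (MvPolynomial.map (Int.castRingHom ℚ) F) ∧ F.totalDegree ≤ n ∧
      (∃ e ∈ F.support, 1 ≤ e 1) ∧ vl F x y = 0 ∧ ∀ e, |F.coeff e| ≤ ((H ^ c : ℕ) : ℤ) := by
  obtain ⟨K, hK1, hK⟩ := fct n
  obtain ⟨E, hE⟩ : ∃ E : ℕ, E = ⌈Real.exp (K + n * K)⌉₊ * (n + 1) ^ 2 := ⟨_, rfl⟩
  refine ⟨E + 1, fun G H hH2 hGn hGy hGH x y h0 => ?_⟩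
  have hvl : ∀ P : MvPolynomial (Fin 2) ℤ, vl P x y = Lam x y (toB P) := by
    intro P
    rw [toB_Lam]
    unfold vl
    have h1 : Int.castRingHom ℤ = RingHom.id ℤ := Subsingleton.elim _ _
    rw [h1]
    rfl
  have hG0 : G ≠ 0 := by
    rintro rfl
    exact hGy (MvPolynomial.coeff_zero _)
  have hB0 : toB G ≠ 0 := by
    intro h'
    exact hG0 ((map_eq_zero_iff _ (AlgEquiv.injective _)).1 h')
  obtain ⟨p0, hp0, hdvd, hL⟩ := exists_irr x y (toB G) hB0 (by rw [← hvl, h0])
  obtain ⟨F, hF⟩ : ∃ F, F = toB.symm p0 := ⟨_, rfl⟩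
  have hFB : toB F = p0 := by rw [hF]; exact AlgEquiv.apply_symm_apply _ _
  have hFG : F ∣ G := by
    have h1 := map_dvd toB.symm hdvd
    rw [AlgEquiv.symm_apply_apply] at h1
    rw [hF]
    exact h1
  obtain ⟨R, hR⟩ := hFG
  have hF0 : F ≠ 0 := by
    rintro rfl
    rw [zero_mul] at hR
    exact hG0 hR
  have hR0 : R ≠ 0 := by
    rintro rfl
    rw [mul_zero] at hR
    exact hG0 hR
  have htot : F.totalDegree + R.totalDegree ≤ n := by
    rw [← MvPolynomial.totalDegree_mul_of_isDomain hF0 hR0, ← hR]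
    exact hGn
  -- the degree of `toB G` in the second variable
  have hGd : (toB G).natDegree = n := by
    refine le_antisymm ?_ (le_natDegree_of_ne_zero ?_)
    · rw [natDegree_le_iff_coeff_eq_zero]
      intro N hN
      ext i
      rw [toB_coeff, coeff_zero]
      by_contra h'
      have h1 := fcx_tot hGn _ h'
      simp at h1
      omega
    · intro h'
      have h1 := congrArg (fun q => q.coeff 0) h'
      simp only [toB_coeff, coeff_zero, Finsupp.single_zero, zero_add] at h1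
      exact hGy h1
  have hRd : (toB R).natDegree ≤ R.totalDegree := by
    rw [natDegree_le_iff_coeff_eq_zero]
    intro N hN
    ext i
    rw [toB_coeff, coeff_zero]
    by_contra h'
    have h1 := fcx_tot le_rfl _ h'
    simp at h1
    omega
  have hFd : p0.natDegree + (toB R).natDegree = n := by
    rw [← hFB, ← natDegree_mul (by rw [hFB]; exact hp0.ne_zero) (by
      intro h'
      exact hR0 ((map_eq_zero_iff _ (AlgEquiv.injective _)).1 h')), ← map_mul, ← hR, hGd]
  have hFt : 1 ≤ F.totalDegree := by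
    by_contra hcon
    have h1 : F.totalDegree = 0 := by omega
    rw [MvPolynomial.totalDegree_eq_zero_iff_eq_C] at h1
    rw [← hFB, ← hvl, h1] at hL
    unfold vl at hL
    rw [MvPolynomial.eval₂_C, eq_intCast, Int.cast_id] at hL
    rw [hL, MvPolynomial.C_0] at h1
    exact hF0 h1
  have hnd : 1 ≤ p0.natDegree := by omega
  have hXG : XD n (toB G) := by
    intro j
    rw [natDegree_le_iff_coeff_eq_zero]
    intro N hN
    rw [toB_coeff]
    by_contra h'
    have h1 := fcx_tot hGn _ h'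
    simp at h1
    omega
  have hpX : XD n p0 := xd_of_dvd hB0 hdvd hXG
  have hf := hK p0 (toB G) 1 hp0 (by omega) hpX hB0 (by rw [pow_one]; exact hdvd)
  have hL2p : 1 ≤ L2 p0 := fct_one_le_L2 hp0.ne_zero
  have hl1 := fcx_l1 hGn hGH
  have hl1p : 0 < l1 G := by
    rw [← toB_L2]
    have := fct_one_le_L2 hB0
    linarith
  have hL2 : L2 p0 ≤ ((H ^ (E + 1) : ℕ) : ℝ) := by
    rw [toB_L2, hGd, Nat.cast_one, one_mul, one_mul] at hf
    have h1 : Real.log (L2 p0) ≤ Real.log (Real.exp (K + n * K) * ((n + 1) ^ 2 * H : ℕ)) := by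
      have h2 := Real.log_le_log hl1p hl1
      have h3 : (0 : ℝ) < ((n + 1) ^ 2 * H : ℕ) := lt_of_lt_of_le hl1p hl1
      rw [Real.log_mul (Real.exp_pos _).ne' h3.ne', Real.log_exp]
      linarith
    have h3 : (0 : ℝ) < ((n + 1) ^ 2 * H : ℕ) := lt_of_lt_of_le hl1p hl1
    have h4 := (Real.log_le_log_iff (by linarith) (by positivity)).1 h1
    refine h4.trans ?_
    have h5 : Real.exp (K + n * K) * ((n + 1) ^ 2 * H : ℕ) ≤ ((E * H : ℕ) : ℝ) := by
      rw [hE]
      push_cast
      rw [mul_assoc (⌈Real.exp (K + n * K)⌉₊ : ℝ)]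
      exact mul_le_mul_of_nonneg_right (Nat.le_ceil _) (by positivity)
    refine h5.trans ?_
    have h6 : E * H ≤ H ^ (E + 1) := by
      rw [pow_succ]
      refine Nat.mul_le_mul_right _ ?_
      exact (Nat.lt_two_pow_self).le.trans (Nat.pow_le_pow_left hH2 E)
    exact_mod_cast h6
  refine ⟨F, ⟨R, hR⟩, ?_, by omega, ?_, ?_, ?_⟩
  · rw [hF]
    exact irr_Q p0 hp0 hnd
  · have h1 : p0.coeff p0.natDegree ≠ 0 := by
      rw [coeff_natDegree]
      exact leadingCoeff_ne_zero.2 hp0.ne_zero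
    obtain ⟨i, hi⟩ : ∃ i, (p0.coeff p0.natDegree).coeff i ≠ 0 := by
      by_contra hcon
      push Not at hcon
      exact h1 (Polynomial.ext fun i => by rw [hcon i, coeff_zero])
    rw [← hFB, toB_coeff, hFB] at hi
    refine ⟨_, MvPolynomial.mem_support_iff.2 hi, ?_⟩
    simpa using hnd
  · rw [hvl, hFB, hL]
  · intro e
    by_cases hm : e ∈ F.support
    · have h1 : |((F.coeff e : ℤ) : ℝ)| ≤ l1 F :=
        single_le_sum (f := fun e => |((MvPolynomial.coeff e F : ℤ) : ℝ)|)
          (fun _ _ => abs_nonneg _) hm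
      rw [← toB_L2, hFB] at h1
      have h2 := h1.trans hL2
      exact_mod_cast h2
    · rw [MvPolynomial.notMem_support_iff.1 hm, abs_zero]
      exact Int.natCast_nonneg _

end Pool.Agent.H4.SX
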