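import Pool.Agent.H97.TV.NPW
import Pool.Agent.H97.TU.FIM

/-! # [H4 SX NPX] No large point over a fibre: the case of a squarefree centre, one family

As `noPtW` (`Pool/Agent/H97/TV/NPW.lean`), for one family `f` whose centre `g = ldU m f` (coefficient of `t^m`) is
squarefree of degree `n`; the local degrees are read off from the real roots of `g`.
PROOF. `noBadWE n m ν` gives `R1, c` (no `BadW n m ν c s R1 0` if `2 s < n`). `exists_fibM n m` with `B = 2 +` the sum of
the absolute values of the coefficients of `f` gives `γ` (roots of `gc = cenU n g`, `Rts gc γ`) and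
`b, D : FibM n m b γ (mo n f)`. `thA_rts n m`, `fam_realV n m`, `lab_real hν` exactly as in `noPtW`: `a ≥ A0` gives
`b^(..) ≤ a`; the label `l` of `P` (with `θ = thA D.Fm.pd m a`) is real, so `(D.Fm.pd.x l).map conj = D.Fm.pd.x l`, and the
constant term `γ l` (`D.cen l`) is real: `γ l = (r : ℂ)`, `r : ℝ`. `gc(r) = 0`, so `g(r / g_n) = 0`
(`cenU_rel`: `(cenU n g).comp (C (g_n) * X) = C (g_n^(n-1)) * g`, `g_n = g.coeff n ≠ 0`). `hR`: `2 s < n` for
`s = (minpoly ℚ (r / g_n)).natDegree`, and this is the degree of `p = minpoly ℚ r` (same field;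
or `p(Z)` and `p(g_n Z)` have the same degree: `p.comp (C g_n * X)` vanishes at `r/g_n` and conversely:
`minpoly.natDegree_le..`, both inequalities by `minpoly.min`-type arguments).
`OrbD D.Fm.pd s 0 l`: `S = {u | aeval (γ u) p = 0}`, `ρ = 0`; `card S ≤ deg p = s` (`γ` injective, roots of `p` in `ℂ`);
`gal`: `PrmB pd σ π` at `k = 0`: if `(a0 : ℂ) = γ u` then `σ a0 = γ (π u)`; `aeval a0 p = 0` in `AA`, so
`aeval (σ a0) p = 0`; `Cj σ 0 0`: `σ 0 = 0`. `γ u` is algebraic, so `a0 : AA` exists.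
`BadW n m ν c s R1 0` is `⟨a, b, mo n f, D.Fm, l, O, P, L, .., thr, big, ..⟩`: contradiction. -/

namespace Pool.Agent.H4.SX

open Finset Polynomial Pool.Agent.H72.ES Pool.Agent.H87.SA Pool.Agent.H87.SA2 Pool.Agent.H87.AX
  Pool.Agent.H8.AW Pool.Agent.H52.AC Pool.Agent.H97.NW Pool.Agent.H34.AC Pool.Agent.H97.FB
  Pool.Agent.H97.FC Pool.Agent.H37.TU Pool.Agent.H97.TU Pool.Agent.H97.TV

theorem no_pt {n m ν : ℕ} (hn : 3 ≤ n) (hm : 1 ≤ m) (hν : 4 ≤ ν) {f : ℤ[X][X]}
    (hd : f.natDegree = n) (hmd : ∀ i, (f.coeff i).natDegree ≤ m) (hl : (ldU m f).natDegree = n)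
    (hsq : Squarefree ((ldU m f).map (Int.castRingHom ℚ)))
    (hirr : Irreducible (f.map (mapRingHom (Int.castRingHom ℂ))))
    (hR : ∀ θ : ℝ, aeval θ (ldU m f) = 0 → 2 * (minpoly ℚ θ).natDegree < n) :
    ∃ (C A0 : ℕ) (R1 : ℝ), ∀ a : ℕ, A0 ≤ a → ∀ P : Ptd ν, P.Thr C → R1 * Real.log a ≤ P.ell →
      (∀ θ : Fin n → ℂ, Rts (fa (mo n f) a) θ → ∃ l, Nonempty (LbG P (v1 θ) l)) → False := by
  classical
  obtain ⟨R1, c, hR1, hbad⟩ := noBadWE n m ν (by omega) hm hν
  obtain ⟨cf, hfib⟩ := exists_fibM n m (by omega) hm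
  obtain ⟨γ, hcm, hγ, hfib⟩ := hfib f hd hmd hl hsq hirr
  obtain ⟨CT, hTR⟩ := thA_rts n m
  obtain ⟨CR, hRR⟩ := fam_realV n m
  obtain ⟨B, hB⟩ : ∃ B : ℕ, B = 2 + ∑ i ∈ range (n + 1), ∑ j ∈ range (m + 1),
      ((f.coeff i).coeff j).natAbs := ⟨_, rfl⟩
  have hB2 : 2 ≤ B := by omega
  have hfB : ∀ i j, |(f.coeff i).coeff j| ≤ (B : ℤ) := by
    intro i j
    by_cases hi : i ∈ range (n + 1)
    · by_cases hj : j ∈ range (m + 1)
      · have h1 : ((f.coeff i).coeff j).natAbs ≤ ∑ j ∈ range (m + 1), ((f.coeff i).coeff j).natAbs :=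
          Finset.single_le_sum (f := fun j => ((f.coeff i).coeff j).natAbs)
            (fun _ _ => Nat.zero_le _) hj
        have h2 : ∑ j ∈ range (m + 1), ((f.coeff i).coeff j).natAbs ≤ ∑ i ∈ range (n + 1),
            ∑ j ∈ range (m + 1), ((f.coeff i).coeff j).natAbs :=
          Finset.single_le_sum (f := fun i => ∑ j ∈ range (m + 1), ((f.coeff i).coeff j).natAbs)
            (fun _ _ => Nat.zero_le _) hi
        rw [Int.abs_eq_natAbs]
        exact_mod_cast (by omega : ((f.coeff i).coeff j).natAbs ≤ B)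
      · rw [mem_range, not_lt] at hj
        rw [coeff_eq_zero_of_natDegree_lt (lt_of_le_of_lt (hmd i) (by omega))]
        simp
    · rw [mem_range, not_lt] at hi
      rw [coeff_eq_zero_of_natDegree_lt (p := f) (by omega)]
      simp
  obtain ⟨b, hb, ⟨D⟩⟩ := hfib B hB2 hfB
  refine ⟨c + cA ν, b ^ (c + CT + CR), R1, ?_⟩
  intro a ha P hThr hbig hlab
  have hb2 := D.Fm.B2
  have ha1 : 1 ≤ a := (Nat.one_le_pow _ _ (by omega)).trans ha
  have hbc1 : b ^ c ≤ a := (Nat.pow_le_pow_right (by omega) (by omega)).trans ha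
  have hbcT : b ^ CT ≤ a := (Nat.pow_le_pow_right (by omega) (by omega)).trans ha
  have hbcR : b ^ CR ≤ a := (Nat.pow_le_pow_right (by omega) (by omega)).trans ha
  have hRt := hTR b _ D.Fm a hbcT
  obtain ⟨l, hL⟩ := hlab _ hRt
  have hre : (D.Fm.pd.x l).map (starRingEnd ℂ) = D.Fm.pd.x l := by
    refine hRR b _ D.Fm a hbcR l ?_
    obtain ⟨L⟩ := hL
    have hint := (gdG_one (D.Fm.monic.map (evalRingHom (a : ℤ))) hRt).int l 0
    have hAA : thA D.Fm.pd m a l ∈ AA := by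
      rw [mem_algebraicClosure_iff]
      exact (hint.tower_top (A := ℚ)).isAlgebraic
    exact lab_real hν P (P.thr_mono (by omega) hThr) L hAA
  obtain ⟨g, hg⟩ : ∃ g, g = ldU m f := ⟨_, rfl⟩
  rw [← hg] at hl hsq hR hcm hγ
  have hgn : g.coeff n ≠ 0 := by
    rw [← hl, coeff_natDegree, Ne, leadingCoeff_eq_zero]
    rintro rfl
    simp at hl
    omega
  have hgnC : ((g.coeff n : ℤ) : ℂ) ≠ 0 := by exact_mod_cast hgn
  have hgnR : ((g.coeff n : ℤ) : ℝ) ≠ 0 := by exact_mod_cast hgn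
  have hgnQ : ((g.coeff n : ℤ) : ℚ) ≠ 0 := by exact_mod_cast hgn
  have hconj : starRingEnd ℂ (γ l) = γ l := by
    have h1 := congrArg (PowerSeries.coeff 0) hre
    rw [PowerSeries.coeff_map, D.cen l] at h1
    exact h1
  obtain ⟨r, hr⟩ := Complex.conj_eq_iff_real.1 hconj
  have hev : ∀ u, aeval (γ u) (cenU n g) = 0 := by
    intro u
    rw [aeval_def, eval₂_eq_eval_map, algebraMap_int_eq, hγ.1, eval_prod]
    exact prod_eq_zero (mem_univ u) (by simp)
  have hgr : ∀ u, aeval (γ u / ((g.coeff n : ℤ) : ℂ)) g = 0 := by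
    intro u
    have h1 := congrArg (aeval (γ u / ((g.coeff n : ℤ) : ℂ))) (cenU_rel (by omega : 1 ≤ n) hl)
    rw [aeval_comp, map_mul, map_mul, aeval_X, aeval_C, aeval_C] at h1
    have h2 : (algebraMap ℤ ℂ) (g.coeff n) * (γ u / ((g.coeff n : ℤ) : ℂ)) = γ u := by
      rw [algebraMap_int_eq, eq_intCast]
      field_simp
    rw [h2, hev u] at h1
    have h3 : (algebraMap ℤ ℂ) (g.coeff n ^ (n - 1)) ≠ 0 := by
      rw [algebraMap_int_eq, eq_intCast]
      push_cast
      exact pow_ne_zero _ hgnC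
    exact (mul_eq_zero.1 h1.symm).resolve_left h3
  obtain ⟨ρ0, hρ0⟩ : ∃ ρ0 : ℝ, ρ0 = r / ((g.coeff n : ℤ) : ℝ) := ⟨_, rfl⟩
  have hρC : ((ρ0 : ℝ) : ℂ) = γ l / ((g.coeff n : ℤ) : ℂ) := by
    rw [hρ0, hr]
    push_cast
    rfl
  have hρg : aeval ρ0 g = 0 := by
    have h1 := hgr l
    rw [← hρC] at h1
    have h2 : aeval ((ρ0 : ℝ) : ℂ) g = ((aeval ρ0 g : ℝ) : ℂ) := by
      rw [← Complex.coe_algebraMap, aeval_algebraMap_apply]
    rw [h2] at h1
    exact_mod_cast h1
  have hs := hR ρ0 hρg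
  have hint : IsIntegral ℚ ρ0 := by
    rw [← isAlgebraic_iff_isIntegral]
    refine ⟨g.map (Int.castRingHom ℚ), ?_, ?_⟩
    · intro h0
      rw [Polynomial.map_eq_zero_iff (RingHom.injective_int _)] at h0
      rw [h0] at hl
      simp at hl
      omega
    · rw [aeval_def, eval₂_map]
      rw [aeval_def] at hρg
      have h9 : (algebraMap ℚ ℝ).comp (Int.castRingHom ℚ) = algebraMap ℤ ℝ := RingHom.ext_int _ _
      rw [h9]
      exact hρg
  obtain ⟨p, hp⟩ : ∃ p : ℚ[X], p = (minpoly ℚ ρ0).comp (C (((g.coeff n : ℤ) : ℚ)⁻¹) * X) := ⟨_, rfl⟩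
  have hpev : ∀ z : ℂ, aeval z p = aeval (z / ((g.coeff n : ℤ) : ℂ)) (minpoly ℚ ρ0) := by
    intro z
    rw [hp, aeval_comp, map_mul, aeval_X, aeval_C]
    congr 1
    rw [map_inv₀, map_intCast]
    field_simp
  have hmin0 : minpoly ℚ ρ0 ≠ 0 := minpoly.ne_zero hint
  have hpdeg : p.natDegree = (minpoly ℚ ρ0).natDegree := by
    rw [hp, natDegree_comp, natDegree_C_mul_X _ (inv_ne_zero hgnQ), mul_one]
  have hp0 : p ≠ 0 := by
    intro h0
    rw [h0, natDegree_zero] at hpdeg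
    have := minpoly.natDegree_pos hint
    omega
  have hAAγ : ∀ u, γ u ∈ AA := by
    intro u
    rw [mem_algebraicClosure_iff]
    have h1 : IsIntegral ℤ (γ u) := ⟨cenU n g, hcm, by
      have := hev u
      rwa [aeval_def] at this⟩
    exact (h1.tower_top (A := ℚ)).isAlgebraic
  have hO : Nonempty (OrbD D.Fm.pd (minpoly ℚ ρ0).natDegree 0 l) := by
    refine ⟨⟨univ.filter fun u => aeval (γ u) p = 0, fun _ => 0, ?_, rfl, ?_, ?_⟩⟩
    · rw [mem_filter]
      refine ⟨mem_univ _, ?_⟩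
      rw [hpev, ← hρC, ← Complex.coe_algebraMap, aeval_algebraMap_apply, minpoly.aeval, map_zero]
    · rw [← hpdeg]
      have h1 : ((univ.filter fun u => aeval (γ u) p = 0).image γ) ⊆ (p.map (algebraMap ℚ ℂ)).roots.toFinset := by
        intro z hz
        rw [mem_image] at hz
        obtain ⟨u, hu, rfl⟩ := hz
        rw [mem_filter] at hu
        rw [Multiset.mem_toFinset, mem_roots (by
          rwa [Ne, Polynomial.map_eq_zero]), IsRoot.def, eval_map, ← aeval_def]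
        exact hu.2
      calc (univ.filter fun u => aeval (γ u) p = 0).card
          = ((univ.filter fun u => aeval (γ u) p = 0).image γ).card :=
            (card_image_of_injective _ hγ.2).symm
        _ ≤ (p.map (algebraMap ℚ ℂ)).roots.toFinset.card := card_le_card h1
        _ ≤ Multiset.card (p.map (algebraMap ℚ ℂ)).roots := Multiset.toFinset_card_le _
        _ ≤ (p.map (algebraMap ℚ ℂ)).natDegree := card_roots' _
        _ = p.natDegree := natDegree_map _
    · intro σ π hπ u hu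
      obtain ⟨ξ, hξ, hσ⟩ := hπ
      rw [mem_filter] at hu
      have h1 := hσ u 0 ⟨γ u, hAAγ u⟩ (by rw [D.cen u])
      rw [pow_zero, one_mul, D.cen] at h1
      refine ⟨?_, ?_⟩
      · rw [mem_filter]
        refine ⟨mem_univ _, ?_⟩
        rw [← h1]
        have h2 : aeval (⟨γ u, hAAγ u⟩ : AA) p = 0 := by
          have h3 : ((aeval (⟨γ u, hAAγ u⟩ : AA) p : AA) : ℂ) = aeval (γ u) p := by
            have := aeval_algebraMap_apply ℂ (⟨γ u, hAAγ u⟩ : AA) p
            exact this.symm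
          rw [hu.2] at h3
          exact_mod_cast h3
        have h4 : aeval (σ ⟨γ u, hAAγ u⟩) p = σ (aeval (⟨γ u, hAAγ u⟩ : AA) p) := by
          rw [aeval_def, aeval_def, Polynomial.hom_eval₂]
          congr 1
          exact Subsingleton.elim _ _
        rw [h4, h2, map_zero]
      · intro a0 ha0
        have h2 : a0 = 0 := by exact_mod_cast ha0
        rw [h2, map_zero]
  exact hbad _ hs ⟨a, b, mo n f, D.Fm, l, hO, P, hL, hbc1, P.thr_mono (by omega) hThr, hbig, ha1⟩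

end Pool.Agent.H4.SX
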