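import Pool.Agent.H4.SX.Defs
import Pool.Agent.H4.TP.MID
import Pool.Agent.H4.TP.NEG

/-! # [H4 SX SYM] The exchange of `x` and `y`, and `t ↦ -t`

`hr_sw`: `topm n m F = (topq n m F).map (algebraMap ℚ ℝ)` (`topm_eq`), `topq n m (swF F) = reflect n (topq n m F)`
(`swF_topq`). A real root `θ` of `reflect n g`, `g.natDegree = n`: `θ ≠ 0` (the constant coefficient of `reflect n g` is the
coefficient `n` of `g`, `h.tq`), `1/θ` is a root of `g` (`eval₂_reflect_eq_zero_iff`), and
`(minpoly ℚ θ⁻¹).natDegree = (minpoly ℚ θ).natDegree`: `minpoly_inv`: `ℚ⟮θ⟯ = ℚ⟮θ⁻¹⟯` (`IntermediateField.adjoin_simple_le_iff`, `inv_mem`)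
and `IntermediateField.adjoin.finrank` (`θ` is algebraic, `θ` a root of a nonzero rational polynomial).
`hr_ng`: `topq_ng` (factor `(-1)^m`).
`large_sw`: `swF_ev3`. -/

namespace Pool.Agent.H4.SX

open Finset Polynomial Pool.Agent.H37.TE Pool.Agent.H98.TE Pool.Agent.H4.TE Pool.Agent.H4.TP

variable {n m : ℕ} {F : ℤ[X][X][X]}

theorem minpoly_inv {θ : ℝ} (hθ : IsIntegral ℚ θ) (h0 : θ ≠ 0) :
    (minpoly ℚ θ⁻¹).natDegree = (minpoly ℚ θ).natDegree := by
  have hθ' : IsIntegral ℚ θ⁻¹ := hθ.inv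
  rw [← IntermediateField.adjoin.finrank hθ, ← IntermediateField.adjoin.finrank hθ']
  have h1 : IntermediateField.adjoin ℚ {θ⁻¹} = IntermediateField.adjoin ℚ {θ} := by
    apply le_antisymm
    · rw [IntermediateField.adjoin_simple_le_iff]
      exact inv_mem (IntermediateField.mem_adjoin_simple_self ℚ θ)
    · rw [IntermediateField.adjoin_simple_le_iff]
      have h2 : θ = (θ⁻¹)⁻¹ := (inv_inv θ).symm
      rw [h2]
      have h3 := inv_mem (IntermediateField.mem_adjoin_simple_self ℚ θ⁻¹)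
      simpa using h3
  rw [h1]

theorem hr_sw (h : HypG n m F) (hR : HR n m F) : HR n m (swF F) := by
  intro θ hθ
  rw [topm_eq, swF_topq, ← reflect_map] at hθ
  obtain ⟨g, hg⟩ : ∃ g, g = topq n m F := ⟨_, rfl⟩
  have hgn : g.natDegree = n := by rw [hg]; exact h.tq
  rw [← hg] at hθ
  have hgc : g.coeff n ≠ 0 := by
    have hg0 : g ≠ 0 := by
      intro h0
      have h1 := h.tq0
      rw [← hg, h0, coeff_zero] at h1
      exact h1 rfl
    rw [← hgn]
    exact leadingCoeff_ne_zero.2 hg0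
  have h0 : θ ≠ 0 := by
    intro h0
    rw [h0, ← coeff_zero_eq_eval_zero, coeff_reflect, revAt_le (Nat.zero_le n), Nat.sub_zero, coeff_map] at hθ
    exact hgc ((map_eq_zero _).1 hθ)
  have h1 : (topm n m F).eval θ⁻¹ = 0 := by
    rw [topm_eq, ← hg, eval_map]
    let _ : Invertible θ⁻¹ := invertibleOfNonzero (inv_ne_zero h0)
    have h2 := (eval₂_reflect_eq_zero_iff (algebraMap ℚ ℝ) θ⁻¹ n g hgn.le).1
    apply h2
    rw [invOf_eq_inv, inv_inv, ← eval_map, ← reflect_map]
    exact hθ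
  have h2 := hR _ h1
  have h3 : IsIntegral ℚ θ := by
    refine IsAlgebraic.isIntegral ⟨reflect n g, ?_, ?_⟩
    · intro h4
      have h5 := congrArg (fun p => coeff p 0) h4
      simp only [coeff_reflect, coeff_zero, revAt_le (Nat.zero_le n), Nat.sub_zero] at h5
      exact hgc h5
    · rw [aeval_def, ← eval_map, ← reflect_map]
      exact hθ
  rwa [minpoly_inv h3 h0] at h2

theorem hr_ng (hR : HR n m F) : HR n m (ngF F) := by
  intro θ hθ
  apply hR
  rw [topm_eq, topq_ng, Polynomial.map_mul, eval_mul] at hθ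
  rw [topm_eq]
  rcases mul_eq_zero.1 hθ with h | h
  · exfalso
    rw [map_C, eval_C] at h
    exact (pow_ne_zero m (by norm_num : (-1 : ℚ) ≠ 0)) ((map_eq_zero _).1 h)
  · exact h

theorem large_sw (H : DegF n m F) (hL : LargeAll F) : LargeAll (swF F) := by
  obtain ⟨C, hC⟩ := hL
  refine ⟨C, fun a ha x y h => ?_⟩
  rw [swF_ev3 H] at h
  exact (hC a ha y x h).symm

end Pool.Agent.H4.SX
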