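import Pool.Agent.H4.SX.HLF
import Pool.Agent.H4.SX.SYM
import Pool.Agent.H4.SX.LRX
import Pool.Agent.H4.TP.ALL

/-! # [H4 SX ALL] THEOREM X: all integer points of the surface

`large_of`: three cases: `large_alphaX`, `large_beta (by omega) h h1`, `large_gamma hn h.H h.lead h1`.
`pos_all`: `half_all` for `F` and for `swF F` (`HypG.swap`, `hr_sw`, `large_sw`, `swF_ev3 h.H`): for `|x| ≤ |y|` the point `(y, x)`
of `swF F`; `R = R_1 R'_2`, `R' = R'_1 R_2` (`evalEval` of a product: `evalEval_mul`).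
`surf`: `pos_all` for `F` (`a ≥ A1`) and for `ngF F` (`hypG_ng`, `cases_ng`, `hr_ng`; `ev3_ng`: the member `-a` of `F` is the
member `a` of `ngF F`): `R_2, R'_2`; replace `t` by `-t` in them: `ng2 R_2 = mapRingHom (compRingHom (-X)) R_2 ≠ 0`
(`ng2_ng2`), `evalEval a x (ng2 R) = evalEval (-a) x R`; and the finitely many `|a| < A1 + A2`:
`C (∏ b ∈ Icc (-B) B, (X - C b)) : ℤ[X][X]`, `≠ 0`, `evalEval a x` of it is `∏ (a - b) = 0`. -/

namespace Pool.Agent.H4.SX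

open Finset Polynomial Pool.Agent.H37.TE Pool.Agent.H98.TE Pool.Agent.H4.TE Pool.Agent.H4.TP

theorem large_of {n m : ℕ} {F : ℤ[X][X][X]} (hn : 3 ≤ n) (h : HypG n m F)
    (hc : Alpha (topf n F) ∨ Beta (topf n F) ∨ Gamma (topf n F)) (hR : HR n m F) : LargeAll F := by
  rcases hc with h1 | h1 | h1
  · exact large_alphaX hn h h1 hR
  · exact large_beta (by omega) h h1
  · exact large_gamma hn h.H h.lead h1

theorem pos_surf {n m : ℕ} {F : ℤ[X][X][X]} (hn : 3 ≤ n) (h : HypG n m F) (hR : HR n m F)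
    (hL : LargeAll F) :
    ∃ (R R' : ℤ[X][X]) (A0 : ℕ), R ≠ 0 ∧ R' ≠ 0 ∧ ∀ a : ℕ, A0 ≤ a → ∀ x y : ℤ,
      ev3 (a : ℤ) x y F = 0 → evalEval (a : ℤ) x R = 0 ∧ evalEval (a : ℤ) y R' = 0 := by
  obtain ⟨R1, R1', A1, h1, h1', hA1⟩ := half_all hn h hR hL
  obtain ⟨R2, R2', A2, h2, h2', hA2⟩ := half_all hn (h.swap (by omega)) (hr_sw h hR)
    (large_sw h.H hL)
  refine ⟨R1 * R2', R1' * R2, A1 + A2, mul_ne_zero h1 h2', mul_ne_zero h1' h2,
    fun a ha x y hxy => ?_⟩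
  rw [evalEval_mul, evalEval_mul]
  rcases le_total |y| |x| with hle | hle
  · obtain ⟨e1, e2⟩ := hA1 a (by omega) x y hxy hle
    rw [e1, e2, zero_mul, zero_mul]
    exact ⟨rfl, rfl⟩
  · obtain ⟨e1, e2⟩ := hA2 a (by omega) y x (by rw [swF_ev3 h.H]; exact hxy) hle
    rw [e1, e2, mul_zero, mul_zero]
    exact ⟨rfl, rfl⟩

private theorem ng2_eval (a x : ℤ) (R : ℤ[X][X]) :
    evalEval a x (ng2 R) = evalEval (-a) x R := by
  have h : (evalEvalRingHom a x).comp ng2 = evalEvalRingHom (-a) x := by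
    refine Polynomial.ringHom_ext' ?_ ?_
    · refine Polynomial.ringHom_ext' (Subsingleton.elim _ _) ?_
      simp [ng2, evalEvalRingHom]
    · simp [ng2, evalEvalRingHom]
  have h1 := congrArg (fun φ => φ R) h
  exact h1

theorem surf {n m : ℕ} {F : ℤ[X][X][X]} (hn : 3 ≤ n) (h : HypG n m F)
    (hc : Alpha (topf n F) ∨ Beta (topf n F) ∨ Gamma (topf n F)) (hR : HR n m F) :
    ∃ R R' : ℤ[X][X], R ≠ 0 ∧ R' ≠ 0 ∧ ∀ a x y : ℤ, ev3 a x y F = 0 →
      evalEval a x R = 0 ∧ evalEval a y R' = 0 := by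
  obtain ⟨R1, R1', A1, h1, h1', hA1⟩ := pos_surf hn h hR (large_of hn h hc hR)
  obtain ⟨R2, R2', A2, h2, h2', hA2⟩ := pos_surf hn (hypG_ng h) (hr_ng hR)
    (large_of hn (hypG_ng h) (cases_ng hc) (hr_ng hR))
  obtain ⟨B, hB⟩ : ∃ B : ℤ, B = (A1 : ℤ) + A2 := ⟨_, rfl⟩
  obtain ⟨p, hp⟩ : ∃ p : ℤ[X], p = ∏ b ∈ Icc (-B) B, (X - C b) := ⟨_, rfl⟩
  have hp0 : p ≠ 0 := by
    rw [hp]
    exact prod_ne_zero_iff.2 fun b _ => X_sub_C_ne_zero b
  have hng : ∀ R : ℤ[X][X], R ≠ 0 → ng2 R ≠ 0 := by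
    intro R hR0 h0
    apply hR0
    rw [← ng2_ng2 R, h0, map_zero]
  refine ⟨C p * (R1 * ng2 R2), C p * (R1' * ng2 R2'), mul_ne_zero (C_ne_zero.2 hp0)
    (mul_ne_zero h1 (hng _ h2)), mul_ne_zero (C_ne_zero.2 hp0) (mul_ne_zero h1' (hng _ h2')),
    fun a x y hxy => ?_⟩
  rw [evalEval_mul, evalEval_mul, evalEval_mul, evalEval_mul, evalEval_C a x, evalEval_C a y, ng2_eval,
    ng2_eval]
  rcases lt_or_ge B |a| with hlt | hge
  · rcases le_total 0 a with ha | ha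
    · obtain ⟨k, rfl⟩ := Int.eq_ofNat_of_zero_le ha
      rw [abs_of_nonneg ha] at hlt
      obtain ⟨e1, e2⟩ := hA1 k (by omega) x y hxy
      rw [e1, e2, zero_mul, zero_mul, mul_zero]
      exact ⟨rfl, rfl⟩
    · obtain ⟨k, hk⟩ := Int.eq_ofNat_of_zero_le (neg_nonneg.2 ha)
      rw [abs_of_nonpos ha] at hlt
      have h3 := hA2 k (by omega) x y (by
        rw [ev3_ng, ← hk, neg_neg]
        exact hxy)
      rw [← hk] at h3
      rw [h3.1, h3.2, mul_zero, mul_zero, mul_zero, mul_zero]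
      exact ⟨rfl, rfl⟩
  · have h3 : p.eval a = 0 := by
      rw [hp, eval_prod]
      refine prod_eq_zero (mem_Icc.2 (abs_le.1 hge)) ?_
      rw [eval_sub, eval_X, eval_C, sub_self]
    rw [h3, zero_mul, zero_mul]
    exact ⟨rfl, rfl⟩

end Pool.Agent.H4.SX
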