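import Pool.Agent.H4.SX.Defs

/-! # [H4 SX EST] The estimate of the auxiliary polynomial at a point of the window (real analysis)

`a ≥ 1`, `X = |x| ≥ 1`, `a^j ≤ X^Q ≤ a^(j+1)`, `L = Q I + (j+1) M + Q`.
`est_mono`: `L < Q p + j q` implies `a^I X^M (1/a)^p (1/X)^q ≤ 1/a`. Take `Q`-th powers
(`pow_le_pow_left_iff`): if `q ≤ M`, `(X^Q)^(M-q) ≤ a^((j+1)(M-q))`, so the left side to the power `Q` is at
most `a^(QI + (j+1)(M-q)) / a^(Qp)` and `Q I + (j+1)(M - q) + Q ≤ Q p` because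
`(j+1) q ≥ j q`. If `q > M`, `(X^Q)^(q-M) ≥ a^(j (q-M))`, so it is at most `a^(QI) / a^(Q p + j (q - M))` and
`Q I + Q ≤ Q p + j (q - M)`.
`est_rho`: `ρ^Q ≤ 1/a`, `L ≤ N`: `(a^I X^M ρ^N)^Q ≤ a^(QI + (j+1)M) (1/a)^N ≤ a^(-Q)`.
`est_pt`: THE ESTIMATE. `c` a relation, `Φ` over `K`, `σ : K → ℝ`, all coefficients of `psi c Φ` with exponents
in `tri Q j L` vanish. `Z` real, `|Z| ≤ 1`, `|Z - Φ^σ(1/a, 1/x)| ≤ C ρ^L`, `ρ ≤ 1`, `1/a ≤ ρ`, `1/|x| ≤ ρ`,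
`ρ^Q ≤ 1/a`. Then `|∑_l c_l a^i x^k (Z x)^b| ≤ C' / a` with `C'` independent of `a, x, Z, ρ`.
PROOF: `a^i x^k (Z x)^b = a^I x^M (1/a)^(I-i) (1/x)^(M-k-b) Z^b` (`k + b ≤ M`, `i ≤ I`; cf. `entry_eq` in
`H98/TE/CLS.lean`). Replace `Z^b` by `Φ^σ(..)^b`: error `≤ b B^b |Z - Φ^σ|` (`pow_diff` in `H98/TE/EXPN.lean`, with
`B` a bound for `|Z|` and `|Φ^σ|`, `mp_bd`-like or `|Z - Φ^σ| ≤ C`), use `est_rho` with `N = L`. The main term is
`a^I x^M eval (1/a, 1/x) (map σ (psi c Φ))`; `MvPolynomial.eval_eq'`: finite sum over the support of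
`psi c Φ` of `σ(coeff) (1/a)^p (1/x)^q`, where `(p, q) ∉ tri Q j L`, i.e. `L < Q p + j q` (if `Q p + j q ≤ L`
then `p, q ≤ L` as `Q, j ≥ 1`): `est_mono`. -/

namespace Pool.Agent.H4.SX

open Finset Polynomial Pool.Agent.H37.TE Pool.Agent.H98.TE Pool.Agent.H4.TP

theorem est_mono {Q j I M p q : ℕ} (hQ : 1 ≤ Q)
    (hpq : Q * I + (j + 1) * M + Q < Q * p + j * q) {a X : ℝ} (ha : 1 ≤ a) (hX : 1 ≤ X)
    (h1 : a ^ j ≤ X ^ Q) (h2 : X ^ Q ≤ a ^ (j + 1)) :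
    a ^ I * X ^ M * ((1 / a) ^ p * (1 / X) ^ q) ≤ 1 / a := by
  have ha0 : 0 < a := by linarith
  have hX0 : 0 < X := by linarith
  have hα : 0 ≤ Real.log a := Real.log_nonneg ha
  have hQr : (0 : ℝ) < Q := by exact_mod_cast hQ
  have e1 := Real.log_le_log (by positivity) h1
  have e2 := Real.log_le_log (by positivity) h2
  rw [Real.log_pow, Real.log_pow] at e1 e2
  push_cast at e2
  have e3 : ((Q : ℝ) * I + (j + 1) * M + Q) + 1 ≤ Q * p + j * q := by exact_mod_cast hpq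
  rw [← Real.log_le_log_iff (by positivity) (by positivity), Real.log_mul (by positivity)
    (by positivity), Real.log_mul (by positivity) (by positivity), Real.log_mul (by positivity)
    (by positivity), Real.log_pow, Real.log_pow, Real.log_pow, Real.log_pow, one_div, one_div,
    Real.log_inv, Real.log_inv]
  obtain ⟨α, hα'⟩ : ∃ α, α = Real.log a := ⟨_, rfl⟩
  obtain ⟨ξ, hξ'⟩ : ∃ ξ, ξ = Real.log X := ⟨_, rfl⟩
  rw [← hα'] at hα e1 e2 ⊢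
  rw [← hξ'] at e1 e2 ⊢
  have key : 0 ≤ Q * (((p : ℝ) - I - 1) * α + ((q : ℝ) - M) * ξ) := by
    rcases le_total (M : ℝ) q with h | h
    · have h3 : ((q : ℝ) - M) * (j * α) ≤ (q - M) * (Q * ξ) :=
        mul_le_mul_of_nonneg_left e1 (sub_nonneg.2 h)
      have h4 : 0 ≤ ((Q : ℝ) * p + j * q - (Q * I + (j + 1) * M + Q)) * α :=
        mul_nonneg (by linarith) hα
      have h5 : 0 ≤ (M : ℝ) * α := mul_nonneg (Nat.cast_nonneg M) hα
      nlinarith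
    · have h3 : ((M : ℝ) - q) * (Q * ξ) ≤ (M - q) * ((j + 1) * α) :=
        mul_le_mul_of_nonneg_left e2 (sub_nonneg.2 h)
      have h4 : 0 ≤ ((Q : ℝ) * p + j * q - (Q * I + (j + 1) * M + Q)) * α :=
        mul_nonneg (by linarith) hα
      have h5 : 0 ≤ (q : ℝ) * α := mul_nonneg (Nat.cast_nonneg q) hα
      nlinarith
  have h6 := nonneg_of_mul_nonneg_right key hQr
  linarith

theorem est_rho {Q j I M N : ℕ} (hQ : 1 ≤ Q) (hN : Q * I + (j + 1) * M + Q ≤ N) {a X ρ : ℝ}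
    (ha : 1 ≤ a) (hX : 1 ≤ X) (h2 : X ^ Q ≤ a ^ (j + 1)) (hρ0 : 0 ≤ ρ) (hρ : ρ ^ Q ≤ 1 / a) :
    a ^ I * X ^ M * ρ ^ N ≤ 1 / a := by
  have ha0 : 0 < a := by linarith
  have hX0 : 0 < X := by linarith
  rcases hρ0.eq_or_lt with h0 | h0
  · rw [← h0, zero_pow (by omega), mul_zero]
    positivity
  have hα : 0 ≤ Real.log a := Real.log_nonneg ha
  have hQr : (0 : ℝ) < Q := by exact_mod_cast hQ
  have e2 := Real.log_le_log (by positivity) h2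
  have e4 := Real.log_le_log (by positivity) hρ
  rw [Real.log_pow, Real.log_pow] at e2
  rw [Real.log_pow, one_div, Real.log_inv] at e4
  push_cast at e2
  have e3 : (Q : ℝ) * I + (j + 1) * M + Q ≤ N := by exact_mod_cast hN
  rw [← Real.log_le_log_iff (by positivity) (by positivity), Real.log_mul (by positivity)
    (by positivity), Real.log_mul (by positivity) (by positivity), Real.log_pow, Real.log_pow,
    Real.log_pow, one_div, Real.log_inv]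
  obtain ⟨α, hα'⟩ : ∃ α, α = Real.log a := ⟨_, rfl⟩
  obtain ⟨ξ, hξ'⟩ : ∃ ξ, ξ = Real.log X := ⟨_, rfl⟩
  obtain ⟨r, hr'⟩ : ∃ r, r = Real.log ρ := ⟨_, rfl⟩
  rw [← hα'] at hα e2 e4 ⊢
  rw [← hξ'] at e2 ⊢
  rw [← hr'] at e4 ⊢
  have key : Q * ((I : ℝ) * α + M * ξ + N * r + α) ≤ 0 := by
    have h3 : (M : ℝ) * (Q * ξ) ≤ M * ((j + 1) * α) :=
      mul_le_mul_of_nonneg_left e2 (Nat.cast_nonneg M)
    have h4 : (N : ℝ) * (Q * r) ≤ N * (-α) := mul_le_mul_of_nonneg_left e4 (Nat.cast_nonneg N)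
    have h5 : ((Q : ℝ) * I + (j + 1) * M + Q) * α ≤ N * α := mul_le_mul_of_nonneg_right e3 hα
    nlinarith
  have h6 : (I : ℝ) * α + M * ξ + N * r + α ≤ 0 := by
    by_contra hcon
    push Not at hcon
    exact absurd key (not_le.2 (mul_pos hQr hcon))
  linarith

theorem est_pt {K : Type} [Field K] (σ : K →+* ℝ) {I n M : ℕ} (c : Lam I n M → ℤ)
    (Φ : MvPolynomial (Fin 2) K) (Q j : ℕ) (hQ : 1 ≤ Q) (hj : 1 ≤ j) (C : ℝ) (hC : 0 ≤ C)
    (hc : ∀ pq ∈ tri Q j (Q * I + (j + 1) * M + Q), (psi c Φ).coeff (ex2 pq) = 0) :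
    ∃ C' : ℝ, 0 ≤ C' ∧ ∀ a x Z ρ : ℝ, 1 ≤ a → 1 ≤ |x| → a ^ j ≤ |x| ^ Q → |x| ^ Q ≤ a ^ (j + 1) →
      |Z| ≤ 1 → 1 / a ≤ ρ → 1 / |x| ≤ ρ → ρ ≤ 1 → ρ ^ Q ≤ 1 / a →
      |Z - MvPolynomial.eval ![1 / a, 1 / x] (MvPolynomial.map σ Φ)| ≤
        C * ρ ^ (Q * I + (j + 1) * M + Q) →
      |∑ l : Lam I n M, (c l : ℝ) * (a ^ (l.1 : ℕ) * x ^ (l.2.2 : ℕ) * (Z * x) ^ (l.2.1 : ℕ))| ≤
        C' / a := by
  classical
  obtain ⟨L, hL⟩ : ∃ L, L = Q * I + (j + 1) * M + Q := ⟨_, rfl⟩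
  rw [← hL] at hc ⊢
  obtain ⟨S1, hS1⟩ : ∃ S1 : ℝ, S1 = ∑ l : Lam I n M, |(c l : ℝ)| *
    (((l.2.1 : ℕ) : ℝ) * (1 + C) ^ (l.2.1 : ℕ) * C) := ⟨_, rfl⟩
  obtain ⟨S2, hS2⟩ : ∃ S2 : ℝ, S2 = ∑ d ∈ (psi c Φ).support, |σ ((psi c Φ).coeff d)| := ⟨_, rfl⟩
  have hS10 : 0 ≤ S1 := by
    rw [hS1]
    exact sum_nonneg fun l _ => by positivity
  have hS20 : 0 ≤ S2 := by
    rw [hS2]
    exact sum_nonneg fun l _ => by positivity
  refine ⟨S1 + S2, by positivity, ?_⟩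
  intro a x Z ρ ha hx h1 h2 hZ hρa hρx hρ1 hρQ hap
  have ha0 : 0 < a := by linarith
  have hx0 : x ≠ 0 := by
    rintro rfl
    rw [abs_zero] at hx
    linarith
  have hρ0 : 0 ≤ ρ := (by positivity : (0 : ℝ) ≤ 1 / a).trans hρa
  obtain ⟨Y, hY⟩ : ∃ Y, Y = MvPolynomial.eval ![1 / a, 1 / x] (MvPolynomial.map σ Φ) := ⟨_, rfl⟩
  rw [← hY] at hap
  have hYB : |Y| ≤ 1 + C := by
    have h3 : C * ρ ^ L ≤ C := mul_le_of_le_one_right hC (pow_le_one₀ hρ0 hρ1)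
    have h4 : |Y| ≤ |Z| + |Z - Y| := by
      have h5 := abs_sub_abs_le_abs_sub Y Z
      rw [abs_sub_comm Y Z] at h5
      linarith
    linarith
  -- the sum in the small parameters
  have hmain : ∀ W : ℝ, ∑ l : Lam I n M, (c l : ℝ) * (a ^ (l.1 : ℕ) * x ^ (l.2.2 : ℕ) *
      (W * x) ^ (l.2.1 : ℕ)) = a ^ I * x ^ M * ∑ l : Lam I n M, (c l : ℝ) *
      ((1 / a) ^ (I - (l.1 : ℕ)) * (1 / x) ^ (M - (l.2.2 : ℕ) - (l.2.1 : ℕ)) *
        W ^ (l.2.1 : ℕ)) := by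
    intro W
    rw [mul_sum]
    refine sum_congr rfl fun l _ => ?_
    have h3 : (l.1 : ℕ) < I := l.1.isLt
    have h4 : (l.2.2 : ℕ) + (l.2.1 : ℕ) ≤ M := by
      have := l.2.2.isLt
      omega
    obtain ⟨r, hr⟩ : ∃ r, I = (l.1 : ℕ) + r := ⟨I - l.1, by omega⟩
    obtain ⟨t, ht⟩ : ∃ t, M = (l.2.2 : ℕ) + (l.2.1 : ℕ) + t := ⟨M - l.2.2 - l.2.1, by omega⟩
    have e1 : I - (l.1 : ℕ) = r := by omega
    have e2 : M - (l.2.2 : ℕ) - (l.2.1 : ℕ) = t := by omega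
    rw [e1, e2]
    have e3 : a ^ I = a ^ (l.1 : ℕ) * a ^ r := by rw [← pow_add, ← hr]
    have e4 : x ^ M = x ^ (l.2.2 : ℕ) * x ^ (l.2.1 : ℕ) * x ^ t := by
      rw [← pow_add, ← pow_add, ← ht]
    rw [e3, e4, mul_pow, one_div, one_div, inv_pow, inv_pow]
    have e5 : a ^ r ≠ 0 := pow_ne_zero _ ha0.ne'
    have e6 : x ^ t ≠ 0 := pow_ne_zero _ hx0
    field_simp
  -- the main term
  have hpsi : MvPolynomial.eval ![1 / a, 1 / x] (MvPolynomial.map σ (psi c Φ)) =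
      ∑ l : Lam I n M, (c l : ℝ) * ((1 / a) ^ (I - (l.1 : ℕ)) *
        (1 / x) ^ (M - (l.2.2 : ℕ) - (l.2.1 : ℕ)) * Y ^ (l.2.1 : ℕ)) := by
    unfold psi
    rw [map_sum, map_sum]
    refine sum_congr rfl fun l _ => ?_
    simp only [map_mul, map_pow, MvPolynomial.map_C, MvPolynomial.map_X, MvPolynomial.eval_C,
      MvPolynomial.eval_X, map_intCast, Matrix.cons_val_zero, Matrix.cons_val_one]
    rw [hY]
  have hb1 : |a ^ I * x ^ M * MvPolynomial.eval ![1 / a, 1 / x]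
      (MvPolynomial.map σ (psi c Φ))| ≤ S2 / a := by
    rw [MvPolynomial.eval_map, MvPolynomial.eval₂_eq', mul_sum]
    refine (abs_sum_le_sum_abs _ _).trans ?_
    rw [hS2, sum_div]
    refine sum_le_sum fun d hd => ?_
    have h3 : L < Q * d 0 + j * d 1 := by
      by_contra hcon
      push Not at hcon
      have h4 : (d 0, d 1) ∈ tri Q j L := by
        unfold tri
        rw [mem_filter, mem_product, mem_range, mem_range]
        refine ⟨⟨?_, ?_⟩, hcon⟩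
        · have : d 0 ≤ Q * d 0 := Nat.le_mul_of_pos_left _ hQ
          simp only
          omega
        · have : d 1 ≤ j * d 1 := Nat.le_mul_of_pos_left _ hj
          simp only
          omega
      have h5 := hc _ h4
      have h6 : ex2 (d 0, d 1) = d := by
        unfold ex2
        ext i
        fin_cases i <;> simp
      rw [h6] at h5
      exact (MvPolynomial.mem_support_iff.1 hd) h5
    rw [Fin.prod_univ_two]
    simp only [Matrix.cons_val_zero, Matrix.cons_val_one]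
    rw [abs_mul, abs_mul, abs_mul, abs_mul, abs_pow, abs_pow, abs_pow, abs_pow, abs_div, abs_div,
      abs_one, abs_of_pos ha0]
    have h4 := est_mono (I := I) (M := M) hQ (by rw [← hL]; exact h3) ha hx h1 h2
    calc a ^ I * |x| ^ M * (|σ ((psi c Φ).coeff d)| * ((1 / a) ^ d 0 * (1 / |x|) ^ d 1)) =
          |σ ((psi c Φ).coeff d)| * (a ^ I * |x| ^ M * ((1 / a) ^ d 0 * (1 / |x|) ^ d 1)) := by ring
      _ ≤ |σ ((psi c Φ).coeff d)| * (1 / a) := mul_le_mul_of_nonneg_left h4 (abs_nonneg _)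
      _ = _ := by ring
  -- the error
  have hb2 : |a ^ I * x ^ M * ∑ l : Lam I n M, (c l : ℝ) * ((1 / a) ^ (I - (l.1 : ℕ)) *
      (1 / x) ^ (M - (l.2.2 : ℕ) - (l.2.1 : ℕ)) * (Z ^ (l.2.1 : ℕ) - Y ^ (l.2.1 : ℕ)))| ≤
      S1 / a := by
    rw [abs_mul, abs_mul, abs_pow, abs_pow, abs_of_pos ha0]
    have h3 : |∑ l : Lam I n M, (c l : ℝ) * ((1 / a) ^ (I - (l.1 : ℕ)) *
        (1 / x) ^ (M - (l.2.2 : ℕ) - (l.2.1 : ℕ)) * (Z ^ (l.2.1 : ℕ) - Y ^ (l.2.1 : ℕ)))| ≤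
        S1 * ρ ^ L := by
      refine (abs_sum_le_sum_abs _ _).trans ?_
      rw [hS1, sum_mul]
      refine sum_le_sum fun l _ => ?_
      rw [abs_mul, abs_mul, abs_mul, abs_pow, abs_pow, abs_div, abs_div, abs_one, abs_of_pos ha0,
        mul_assoc |(c l : ℝ)|]
      refine mul_le_mul_of_nonneg_left ?_ (abs_nonneg _)
      have h4 := pow_diff (D := C * ρ ^ L) (by linarith : (1 : ℝ) ≤ 1 + C)
        (by linarith : |Z| ≤ 1 + C) hYB hap (l.2.1 : ℕ)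
      have h5 : (1 / a) ^ (I - (l.1 : ℕ)) * (1 / |x|) ^ (M - (l.2.2 : ℕ) - (l.2.1 : ℕ)) ≤ 1 := by
        refine mul_le_one₀ (pow_le_one₀ (by positivity) ?_) (by positivity)
          (pow_le_one₀ (by positivity) ?_)
        · rw [div_le_one ha0]
          exact ha
        · rw [div_le_one (by linarith)]
          exact hx
      calc _ ≤ 1 * |Z ^ (l.2.1 : ℕ) - Y ^ (l.2.1 : ℕ)| :=
            mul_le_mul_of_nonneg_right h5 (abs_nonneg _)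
        _ ≤ ((l.2.1 : ℕ) : ℝ) * (1 + C) ^ (l.2.1 : ℕ) * (C * ρ ^ L) := by rw [one_mul]; exact h4
        _ = _ := by ring
    have h4 := est_rho (I := I) (M := M) (N := L) hQ (by rw [hL]) ha hx h2 hρ0 hρQ
    calc a ^ I * |x| ^ M * |_| ≤ a ^ I * |x| ^ M * (S1 * ρ ^ L) :=
          mul_le_mul_of_nonneg_left h3 (by positivity)
      _ = S1 * (a ^ I * |x| ^ M * ρ ^ L) := by ring
      _ ≤ S1 * (1 / a) := mul_le_mul_of_nonneg_left h4 hS10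
      _ = S1 / a := by ring
  rw [hmain Z]
  have hsplit : a ^ I * x ^ M * ∑ l : Lam I n M, (c l : ℝ) * ((1 / a) ^ (I - (l.1 : ℕ)) *
      (1 / x) ^ (M - (l.2.2 : ℕ) - (l.2.1 : ℕ)) * Z ^ (l.2.1 : ℕ)) =
      a ^ I * x ^ M * MvPolynomial.eval ![1 / a, 1 / x] (MvPolynomial.map σ (psi c Φ)) +
      a ^ I * x ^ M * ∑ l : Lam I n M, (c l : ℝ) * ((1 / a) ^ (I - (l.1 : ℕ)) *
      (1 / x) ^ (M - (l.2.2 : ℕ) - (l.2.1 : ℕ)) * (Z ^ (l.2.1 : ℕ) - Y ^ (l.2.1 : ℕ))) := by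
    rw [hpsi, ← mul_add, ← sum_add_distrib]
    congr 1
    refine sum_congr rfl fun l _ => ?_
    ring
  rw [hsplit]
  refine (abs_add_le _ _).trans ?_
  rw [add_div, add_comm (S1 / a)]
  exact add_le_add hb1 hb2

end Pool.Agent.H4.SX
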