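import Pool.Agent.H4.SX.Defs

/-! # [H4 SX LAK] Linear algebra: a relation with integer coefficients

`exists_rel`: the `ℚ`-linear map `(Λ → ℚ) → (Ω → K)`, `c ↦ (∑_l c_l M ω l)_ω`, has a nonzero kernel because
`finrank ℚ (Ω → K) = |Ω| finrank ℚ K < |Λ|`; clear the denominators
(`IsLocalization.exist_integer_multiples_of_finite`, as in `Pool/Agent/H37/TE/Rel.lean`, `rel_int`).
`exists_c`: `Λ = Lam I n M` (`lam_card`), `Ω = T`, `M ω l` = the coefficient of `ex2 ω` in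
`X0^(I-i) X1^(M-k-b) Φ^b`; `coeff` of `psi` is the sum (`MvPolynomial.coeff_sum`, `coeff_C_mul`). -/

namespace Pool.Agent.H4.SX

open Finset Polynomial Pool.Agent.H37.TE Pool.Agent.H98.TE Pool.Agent.H4.TP

theorem exists_rel {K : Type} [Field K] [Algebra ℚ K] [FiniteDimensional ℚ K] {Λ Ω : Type}
    [Fintype Λ] [Fintype Ω] (M : Ω → Λ → K)
    (h : Module.finrank ℚ K * Fintype.card Ω < Fintype.card Λ) :
    ∃ c : Λ → ℤ, c ≠ 0 ∧ ∀ ω, ∑ l, ((c l : ℤ) : K) * M ω l = 0 := by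
  classical
  obtain ⟨L, hL⟩ : ∃ L : (Λ → ℚ) →ₗ[ℚ] (Ω → K), ∀ v ω, L v ω = ∑ l, algebraMap ℚ K (v l) * M ω l := by
    refine ⟨LinearMap.mk ⟨fun v ω => ∑ l, algebraMap ℚ K (v l) * M ω l, ?_⟩ ?_, fun v ω => rfl⟩
    · intro v w
      funext ω
      show ∑ l, algebraMap ℚ K ((v + w) l) * M ω l = (∑ l, algebraMap ℚ K (v l) * M ω l) +
        ∑ l, algebraMap ℚ K (w l) * M ω l
      simp only [Pi.add_apply, map_add, add_mul, sum_add_distrib]
    · intro b v
      funext ω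
      show ∑ l, algebraMap ℚ K ((b • v) l) * M ω l = b • ∑ l, algebraMap ℚ K (v l) * M ω l
      simp only [Pi.smul_apply, smul_eq_mul, map_mul]
      rw [Algebra.smul_def, Finset.mul_sum]
      exact sum_congr rfl fun l _ => by ring
  have hdim : Module.finrank ℚ (Ω → K) < Module.finrank ℚ (Λ → ℚ) := by
    rw [Module.finrank_pi_fintype, sum_const, card_univ, Module.finrank_fintype_fun_eq_card,
      smul_eq_mul, mul_comm]
    exact h
  obtain ⟨v, hv, hv0⟩ := (LinearMap.ker L).ne_bot_iff.1 (LinearMap.ker_ne_bot_of_finrank_lt hdim)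
  rw [LinearMap.mem_ker] at hv
  obtain ⟨b, hb⟩ := IsLocalization.exist_integer_multiples_of_finite (nonZeroDivisors ℤ) v
  have hb0 : ((b : ℤ) : ℚ) ≠ 0 := by
    exact_mod_cast nonZeroDivisors.coe_ne_zero b
  choose c hc using hb
  have hc' : ∀ l, (c l : ℚ) = (b : ℤ) * v l := by
    intro l
    have h1 := hc l
    rw [eq_intCast, zsmul_eq_mul] at h1
    exact h1
  refine ⟨c, ?_, fun ω => ?_⟩
  · intro h0
    apply hv0
    funext l
    have h1 := hc' l
    rw [h0] at h1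
    simp only [Pi.zero_apply, Int.cast_zero] at h1
    exact (mul_eq_zero.1 h1.symm).resolve_left hb0
  · have h1 : ∀ l, ((c l : ℤ) : K) * M ω l =
        algebraMap ℚ K ((b : ℤ) : ℚ) * (algebraMap ℚ K (v l) * M ω l) := by
      intro l
      rw [← mul_assoc, ← map_mul, ← hc' l, map_intCast]
    simp only [h1]
    rw [← Finset.mul_sum, ← hL v ω, hv, Pi.zero_apply, mul_zero]

theorem exists_c {K : Type} [Field K] [Algebra ℚ K] [FiniteDimensional ℚ K] (I n M : ℕ)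
    (Φ : MvPolynomial (Fin 2) K) (T : Finset (ℕ × ℕ))
    (h : Module.finrank ℚ K * T.card < I * QQ n M) :
    ∃ c : Lam I n M → ℤ, c ≠ 0 ∧ ∀ pq ∈ T, (psi c Φ).coeff (ex2 pq) = 0 := by
  classical
  obtain ⟨c, hc0, hc⟩ := exists_rel (K := K) (Λ := Lam I n M) (Ω := T)
    (fun pq l => ((MvPolynomial.X 0) ^ (I - (l.1 : ℕ)) *
    (MvPolynomial.X 1) ^ (M - (l.2.2 : ℕ) - (l.2.1 : ℕ)) * Φ ^ (l.2.1 : ℕ)).coeff (ex2 pq.1)) (by
      rw [lam_card, Fintype.card_coe]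
      exact h)
  refine ⟨c, hc0, fun pq hpq => ?_⟩
  rw [← hc ⟨pq, hpq⟩]
  unfold psi
  rw [MvPolynomial.coeff_sum]
  exact sum_congr rfl fun l _ => MvPolynomial.coeff_C_mul _ _ _

end Pool.Agent.H4.SX
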