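import Pool.Agent.H4.SX.Defs
import Pool.Agent.H98.TE.EXPN

/-! # [H4 SX NWK] Newton approximation of a simple root with coefficients in a field `K`

As `newton`, `root_near`, `approx` in `Pool/Agent/H98/TE/NWT.lean`, `EXPN.lean` (complete proofs there, 200
lines, three variables, real coefficients); here two variables and the approximation `Φ` has coefficients
in `K`.
PROOF. Newton over `K`: by induction on `N` there is `Φ` with `eval 0 Φ = θ` and all coefficients of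
`P.eval Φ` of total degree `≤ N` are zero (`N = 0`: `Φ = C θ`; step: `Φ' = Φ - C (1/D) * P.eval Φ`,
`D = P'(0,0)(θ)`: `P(Φ - h) = P(Φ) - P'(Φ) h + h² (..)`, `P'(Φ) = D + (terms of degree ≥ 1)`, so
`P(Φ') = P(Φ)(1 - P'(Φ)/D) + h²(..)` has no terms of degree `≤ N + 1`). It is convenient to work with the
ideal `J = span {X 0, X 1}` and `P.eval Φ ∈ J ^ (N + 1)`; or, as in `NWT.lean`, with the numerical property
`∃ C, ∀ ε ρ, (∀ i, |ε i| ≤ ρ) → ρ ≤ 1 → |eval ε (map σ (P.eval Φ))| ≤ C ρ^(N+1)` directly: the proof of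
`newton` (`mp_bd` for `map σ p`) then works word by word, only `Φ` is taken over `K`.
Root: as `root_near`: `0 - P^σ(ε)(Φ^σ(ε)) = dq (ε, Z) (Z - Φ^σ(ε))` with `dq` continuous and `dq (0, σ θ) ≠ 0`.
SHORT CUT: `root_near` of `NWT.lean` is stated for `P : Polynomial R3`, `R3 = MvPolynomial (Fin 3) ℝ`; one can
apply it to the images of `P` and `Φ` under `MvPolynomial.map σ` and `rename ![0, 1]` (`Fin 2 → Fin 3`). -/

namespace Pool.Agent.H4.SX

open Finset Polynomial Pool.Agent.H37.TE Pool.Agent.H98.TE Pool.Agent.H4.TP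

/-- polynomials in the two small parameters -/
private abbrev R2 := MvPolynomial (Fin 2) ℝ

/-- a polynomial is bounded, and Lipschitz at `0` -/
private theorem nwk_bd (p : R2) : ∃ C : ℝ, 0 ≤ C ∧ ∀ (ε : Fin 2 → ℝ) (ρ : ℝ), (∀ i, |ε i| ≤ ρ) → ρ ≤ 1 →
    |MvPolynomial.eval ε p| ≤ C ∧
    |MvPolynomial.eval ε p - MvPolynomial.eval (0 : Fin 2 → ℝ) p| ≤ C * ρ := by
  induction p using MvPolynomial.induction_on with
  | C a =>
    refine ⟨|a|, abs_nonneg a, fun ε ρ hε hρ => ⟨by simp, ?_⟩⟩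
    have h0 : 0 ≤ ρ := (abs_nonneg _).trans (hε 0)
    simp only [MvPolynomial.eval_C, sub_self, abs_zero]
    positivity
  | add p q hp hq =>
    obtain ⟨C1, h1, h2⟩ := hp
    obtain ⟨C2, h3, h4⟩ := hq
    refine ⟨C1 + C2, by positivity, fun ε ρ hε hρ => ?_⟩
    obtain ⟨h5, h6⟩ := h2 ε ρ hε hρ
    obtain ⟨h7, h8⟩ := h4 ε ρ hε hρ
    rw [map_add, map_add]
    refine ⟨(abs_add_le _ _).trans (add_le_add h5 h7), ?_⟩
    rw [add_sub_add_comm, add_mul]
    exact (abs_add_le _ _).trans (add_le_add h6 h8)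
  | mul_X p i hp =>
    obtain ⟨C1, h1, h2⟩ := hp
    refine ⟨C1, h1, fun ε ρ hε hρ => ?_⟩
    obtain ⟨h5, h6⟩ := h2 ε ρ hε hρ
    rw [map_mul, map_mul, MvPolynomial.eval_X, MvPolynomial.eval_X, abs_mul]
    have h7 : |MvPolynomial.eval ε p| * |ε i| ≤ C1 * ρ := mul_le_mul h5 (hε i) (abs_nonneg _) h1
    refine ⟨h7.trans (mul_le_of_le_one_right h1 hρ), ?_⟩
    have e : MvPolynomial.eval ε p * ε i - MvPolynomial.eval (0 : Fin 2 → ℝ) p * (0 : Fin 2 → ℝ) i =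
        MvPolynomial.eval ε p * ε i := by
      simp
    rw [e, abs_mul]
    exact h7

private theorem nwk_ev (ε : Fin 2 → ℝ) (P : Polynomial R2) (Φ : R2) :
    MvPolynomial.eval ε (P.eval Φ) = (P.map (MvPolynomial.eval ε)).eval (MvPolynomial.eval ε Φ) := by
  rw [Polynomial.eval_map]
  exact Polynomial.hom_eval₂ P (RingHom.id R2) (MvPolynomial.eval ε) Φ

/-- the difference quotient of `P(ε, ·)` -/
private noncomputable def nwk_dq (P : Polynomial R2) (Φ : R2) (z : (Fin 2 → ℝ) × ℝ) : ℝ :=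
  ∑ b ∈ range (P.natDegree + 1), MvPolynomial.eval z.1 (P.coeff b) *
    ∑ i ∈ range b, z.2 ^ i * (MvPolynomial.eval z.1 Φ) ^ (b - 1 - i)

private theorem nwk_dqc (P : Polynomial R2) (Φ : R2) : Continuous (nwk_dq P Φ) := by
  unfold nwk_dq
  have h : ∀ p : R2, Continuous fun z : (Fin 2 → ℝ) × ℝ => MvPolynomial.eval z.1 p := fun p =>
    (MvPolynomial.continuous_eval p).comp continuous_fst
  refine continuous_finsetSum _ fun b _ => (h _).mul (continuous_finsetSum _ fun i _ => ?_)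
  exact (continuous_snd.pow i).mul ((h Φ).pow _)

private theorem nwk_dqe (P : Polynomial R2) (Φ : R2) (ε : Fin 2 → ℝ) (Z : ℝ) :
    (P.map (MvPolynomial.eval ε)).eval Z - MvPolynomial.eval ε (P.eval Φ) =
      nwk_dq P Φ (ε, Z) * (Z - MvPolynomial.eval ε Φ) := by
  rw [nwk_ev, Polynomial.eval_eq_sum_range' (n := P.natDegree + 1)
    (lt_of_le_of_lt Polynomial.natDegree_map_le (Nat.lt_succ_self _)),
    Polynomial.eval_eq_sum_range' (n := P.natDegree + 1)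
    (lt_of_le_of_lt Polynomial.natDegree_map_le (Nat.lt_succ_self _)), ← sum_sub_distrib]
  unfold nwk_dq
  rw [sum_mul]
  refine sum_congr rfl fun b _ => ?_
  rw [Polynomial.coeff_map, mul_assoc, (Commute.all _ _).geom_sum₂_mul]
  ring

private theorem nwk_dqz (P : Polynomial R2) (Φ : R2) {θ : ℝ}
    (hΦ : MvPolynomial.eval (0 : Fin 2 → ℝ) Φ = θ) :
    nwk_dq P Φ (0, θ) = (P.map (MvPolynomial.eval (0 : Fin 2 → ℝ))).derivative.eval θ := by
  unfold nwk_dq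
  rw [Polynomial.derivative_eval, Polynomial.sum_over_range' _ _ (P.natDegree + 1)
    (lt_of_le_of_lt Polynomial.natDegree_map_le (Nat.lt_succ_self _))]
  · refine sum_congr rfl fun b _ => ?_
    rw [hΦ, Polynomial.coeff_map, mul_assoc]
    congr 1
    rw [sum_congr rfl (fun i hi => by
      rw [mem_range] at hi
      rw [← pow_add, show i + (b - 1 - i) = b - 1 by omega] :
      ∀ i ∈ range b, θ ^ i * θ ^ (b - 1 - i) = θ ^ (b - 1)), sum_const, card_range, nsmul_eq_mul]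
  · intro b
    simp

private theorem nwk_root (P : Polynomial R2) (θ : ℝ)
    (h1 : (P.map (MvPolynomial.eval (0 : Fin 2 → ℝ))).derivative.eval θ ≠ 0) (Φ : R2)
    (hΦ : MvPolynomial.eval (0 : Fin 2 → ℝ) Φ = θ) :
    ∃ c0 C : ℝ, 0 < c0 ∧ 0 ≤ C ∧ ∀ ε : Fin 2 → ℝ, (∀ i, |ε i| ≤ c0) → ∀ Z : ℝ, |Z - θ| ≤ c0 →
      (P.map (MvPolynomial.eval ε)).eval Z = 0 →
      |Z - MvPolynomial.eval ε Φ| ≤ C * |MvPolynomial.eval ε (P.eval Φ)| := by
  obtain ⟨D, hD⟩ : ∃ D, D = (P.map (MvPolynomial.eval (0 : Fin 2 → ℝ))).derivative.eval θ :=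
    ⟨_, rfl⟩
  rw [← hD] at h1
  have hD0 : 0 < |D| := abs_pos.2 h1
  have h2 := Metric.continuous_iff.1 (nwk_dqc P Φ) (0, θ) (|D| / 2) (by positivity)
  obtain ⟨c, hc, h3⟩ := h2
  refine ⟨c / 2, 2 / |D|, by positivity, by positivity, fun ε hε Z hZ hP => ?_⟩
  have h4 : dist (ε, Z) ((0 : Fin 2 → ℝ), θ) < c := by
    rw [Prod.dist_eq, max_lt_iff]
    constructor
    · refine lt_of_le_of_lt ((dist_pi_le_iff (by positivity : (0 : ℝ) ≤ c / 2)).2 fun i => ?_)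
        (by linarith)
      rw [Real.dist_eq]
      simpa using hε i
    · rw [Real.dist_eq]
      exact lt_of_le_of_lt hZ (by linarith)
  have h5 := h3 (ε, Z) h4
  rw [nwk_dqz P Φ hΦ, ← hD, Real.dist_eq] at h5
  have h6 : |D| / 2 ≤ |nwk_dq P Φ (ε, Z)| := by
    have h7 : |D| ≤ |nwk_dq P Φ (ε, Z) - D| + |nwk_dq P Φ (ε, Z)| := by
      have := abs_sub_abs_le_abs_sub D (nwk_dq P Φ (ε, Z))
      rw [abs_sub_comm] at this
      linarith
    linarith
  have h8 := nwk_dqe P Φ ε Z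
  rw [hP, zero_sub] at h8
  have h9 : |MvPolynomial.eval ε (P.eval Φ)| =
      |nwk_dq P Φ (ε, Z)| * |Z - MvPolynomial.eval ε Φ| := by
    rw [← abs_mul, ← h8, abs_neg]
  rw [h9]
  have h10 : 1 ≤ 2 / |D| * |nwk_dq P Φ (ε, Z)| := by
    rw [div_mul_eq_mul_div, le_div_iff₀ hD0]
    linarith
  calc |Z - MvPolynomial.eval ε Φ| = 1 * |Z - MvPolynomial.eval ε Φ| := (one_mul _).symm
    _ ≤ (2 / |D| * |nwk_dq P Φ (ε, Z)|) * |Z - MvPolynomial.eval ε Φ| :=
        mul_le_mul_of_nonneg_right h10 (abs_nonneg _)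
    _ = _ := by ring


private theorem nwk_zero {K : Type} [Field K] (σ : K →+* ℝ) (p : MvPolynomial (Fin 2) K) :
    MvPolynomial.eval (0 : Fin 2 → ℝ) (MvPolynomial.map σ p) = σ (MvPolynomial.eval (0 : Fin 2 → K) p) := by
  induction p using MvPolynomial.induction_on with
  | C a => simp
  | add p q hp hq => simp only [map_add, hp, hq]
  | mul_X p i hp => simp

private theorem nwk_bdK {K : Type} [Field K] (σ : K →+* ℝ) (p : MvPolynomial (Fin 2) K) :
    ∃ C : ℝ, 0 ≤ C ∧ ∀ (ε : Fin 2 → ℝ) (ρ : ℝ), (∀ i, |ε i| ≤ ρ) → ρ ≤ 1 →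
    |MvPolynomial.eval ε (MvPolynomial.map σ p)| ≤ C ∧
    |MvPolynomial.eval ε (MvPolynomial.map σ p) - σ (MvPolynomial.eval (0 : Fin 2 → K) p)| ≤ C * ρ := by
  obtain ⟨C, hC, h⟩ := nwk_bd (MvPolynomial.map σ p)
  refine ⟨C, hC, fun ε ρ hε hρ => ?_⟩
  have h1 := h ε ρ hε hρ
  rw [nwk_zero] at h1
  exact h1

private theorem nwk_evz {K : Type} [Field K] (P : Polynomial (MvPolynomial (Fin 2) K))
    (Φ : MvPolynomial (Fin 2) K) : MvPolynomial.eval (0 : Fin 2 → K) (P.eval Φ) =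
      (P.map (MvPolynomial.eval (0 : Fin 2 → K))).eval (MvPolynomial.eval (0 : Fin 2 → K) Φ) := by
  rw [Polynomial.eval_map]
  exact Polynomial.hom_eval₂ P (RingHom.id _) (MvPolynomial.eval (0 : Fin 2 → K)) Φ

private theorem nwk_newton {K : Type} [Field K] (σ : K →+* ℝ) (P : Polynomial (MvPolynomial (Fin 2) K))
    (θ : K) (h0 : (P.map (MvPolynomial.eval (0 : Fin 2 → K))).eval θ = 0)
    (h1 : (P.map (MvPolynomial.eval (0 : Fin 2 → K))).derivative.eval θ ≠ 0) (N : ℕ) :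
    ∃ (Φ : MvPolynomial (Fin 2) K) (C : ℝ), 0 ≤ C ∧ MvPolynomial.eval (0 : Fin 2 → K) Φ = θ ∧
      ∀ (ε : Fin 2 → ℝ) (ρ : ℝ), (∀ i, |ε i| ≤ ρ) → ρ ≤ 1 →
        |MvPolynomial.eval ε (MvPolynomial.map σ (P.eval Φ))| ≤ C * ρ ^ (N + 1) := by
  induction N with
  | zero =>
    obtain ⟨C, hC, h⟩ := nwk_bdK σ (P.eval (MvPolynomial.C θ))
    refine ⟨MvPolynomial.C θ, C, hC, by simp, fun ε ρ hε hρ => ?_⟩
    have h2 := (h ε ρ hε hρ).2
    rw [nwk_evz, MvPolynomial.eval_C, h0, map_zero, sub_zero] at h2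
    simpa using h2
  | succ N ih =>
    obtain ⟨Φ, C, hC, hΦ, h⟩ := ih
    obtain ⟨V, hV⟩ : ∃ V, V = ((P.map (MvPolynomial.eval (0 : Fin 2 → K))).derivative.eval θ)⁻¹ :=
      ⟨_, rfl⟩
    obtain ⟨E, hE⟩ : ∃ E, E = P.eval Φ := ⟨_, rfl⟩
    obtain ⟨kk, hk⟩ := Polynomial.binomExpansion P Φ (-(MvPolynomial.C V * E))
    obtain ⟨C1, hC1, g1⟩ := nwk_bdK σ (1 - MvPolynomial.C V * P.derivative.eval Φ)
    obtain ⟨C2, hC2, g2⟩ := nwk_bdK σ kk
    have hE0 : MvPolynomial.eval (0 : Fin 2 → K) E = 0 := by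
      rw [hE, nwk_evz, hΦ, h0]
    refine ⟨Φ + -(MvPolynomial.C V * E), C * C1 + C2 * ((σ V) ^ 2 * C ^ 2), by positivity, ?_, ?_⟩
    · rw [map_add, map_neg, map_mul, hE0, hΦ]
      simp
    · intro ε ρ hε hρ
      have hρ0 : 0 ≤ ρ := (abs_nonneg _).trans (hε 0)
      have k1 : MvPolynomial.eval (0 : Fin 2 → K) (1 - MvPolynomial.C V * P.derivative.eval Φ) = 0 := by
        rw [map_sub, map_mul, map_one, MvPolynomial.eval_C, nwk_evz, hΦ, ← Polynomial.derivative_map,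
          hV, inv_mul_cancel₀ h1, sub_self]
      have k2 := (g1 ε ρ hε hρ).2
      rw [k1, map_zero, sub_zero] at k2
      have k3 := (g2 ε ρ hε hρ).1
      have k4 := h ε ρ hε hρ
      rw [← hE] at k4
      have k5 : MvPolynomial.eval ε (MvPolynomial.map σ (P.eval (Φ + -(MvPolynomial.C V * E)))) =
          MvPolynomial.eval ε (MvPolynomial.map σ E) *
            MvPolynomial.eval ε (MvPolynomial.map σ (1 - MvPolynomial.C V * P.derivative.eval Φ)) +
          MvPolynomial.eval ε (MvPolynomial.map σ kk) *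
            ((σ V) ^ 2 * MvPolynomial.eval ε (MvPolynomial.map σ E) ^ 2) := by
        rw [hk, ← hE]
        simp only [map_add, map_mul, map_neg, map_pow, map_sub, map_one, MvPolynomial.eval_C,
          MvPolynomial.map_C]
        ring
      rw [k5]
      have hp1 : 0 ≤ ρ ^ (N + 1) := pow_nonneg hρ0 _
      have k6 : |MvPolynomial.eval ε (MvPolynomial.map σ E) *
          MvPolynomial.eval ε (MvPolynomial.map σ (1 - MvPolynomial.C V * P.derivative.eval Φ))| ≤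
          C * ρ ^ (N + 1) * (C1 * ρ) := by
        rw [abs_mul]
        exact mul_le_mul k4 k2 (abs_nonneg _) (by positivity)
      have k7 : |MvPolynomial.eval ε (MvPolynomial.map σ kk) *
          ((σ V) ^ 2 * MvPolynomial.eval ε (MvPolynomial.map σ E) ^ 2)| ≤
          C2 * ((σ V) ^ 2 * (C * ρ ^ (N + 1)) ^ 2) := by
        rw [abs_mul, abs_mul, abs_pow (MvPolynomial.eval ε (MvPolynomial.map σ E)),
          abs_of_nonneg (sq_nonneg (σ V))]
        refine mul_le_mul k3 ?_ (by positivity) hC2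
        exact mul_le_mul_of_nonneg_left (pow_le_pow_left₀ (abs_nonneg _) k4 2) (sq_nonneg _)
      have k8 : (ρ ^ (N + 1)) ^ 2 ≤ ρ ^ (N + 2) := by
        rw [← pow_mul]
        exact pow_le_pow_of_le_one hρ0 hρ (by omega)
      refine (abs_add_le _ _).trans ((add_le_add k6 k7).trans ?_)
      have k9 : C2 * ((σ V) ^ 2 * (C * ρ ^ (N + 1)) ^ 2) ≤ C2 * ((σ V) ^ 2 * C ^ 2) * ρ ^ (N + 2) := by
        rw [mul_pow]
        have : C2 * ((σ V) ^ 2 * (C ^ 2 * (ρ ^ (N + 1)) ^ 2)) =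
            C2 * ((σ V) ^ 2 * C ^ 2) * (ρ ^ (N + 1)) ^ 2 := by ring
        rw [this]
        exact mul_le_mul_of_nonneg_left k8 (by positivity)
      have k10 : C * ρ ^ (N + 1) * (C1 * ρ) = C * C1 * ρ ^ (N + 2) := by ring
      rw [k10]
      have : N + 1 + 1 = N + 2 := by omega
      rw [this, add_mul]
      linarith

theorem newtonK {K : Type} [Field K] (σ : K →+* ℝ) (P : Polynomial (MvPolynomial (Fin 2) K))
    (θ : K) (h0 : (P.map (MvPolynomial.eval (0 : Fin 2 → K))).eval θ = 0)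
    (h1 : (P.map (MvPolynomial.eval (0 : Fin 2 → K))).derivative.eval θ ≠ 0) (N : ℕ) :
    ∃ (Φ : MvPolynomial (Fin 2) K) (C c0 : ℝ), 0 ≤ C ∧ 0 < c0 ∧ c0 ≤ 1 ∧
      ∀ (ε : Fin 2 → ℝ) (ρ : ℝ), (∀ i, |ε i| ≤ ρ) → ρ ≤ c0 → ∀ Z : ℝ, |Z - σ θ| ≤ c0 →
        ((P.map (MvPolynomial.map σ)).map (MvPolynomial.eval ε)).eval Z = 0 →
        |Z - MvPolynomial.eval ε (MvPolynomial.map σ Φ)| ≤ C * ρ ^ N := by
  obtain ⟨Φ, C1, hC1, hΦ, h2⟩ := nwk_newton σ P θ h0 h1 N
  have hmap : (P.map (MvPolynomial.map σ)).map (MvPolynomial.eval (0 : Fin 2 → ℝ)) =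
      (P.map (MvPolynomial.eval (0 : Fin 2 → K))).map σ := by
    rw [Polynomial.map_map, Polynomial.map_map]
    congr 1
    exact RingHom.ext fun p => nwk_zero σ p
  have h1σ : ((P.map (MvPolynomial.map σ)).map
      (MvPolynomial.eval (0 : Fin 2 → ℝ))).derivative.eval (σ θ) ≠ 0 := by
    rw [hmap, Polynomial.derivative_map, Polynomial.eval_map_apply]
    exact (map_ne_zero σ).2 h1
  obtain ⟨c, C2, hc, hC2, h3⟩ := nwk_root (P.map (MvPolynomial.map σ)) (σ θ) h1σ (MvPolynomial.map σ Φ)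
    (by rw [nwk_zero, hΦ])
  refine ⟨Φ, C2 * C1, min c 1, by positivity, lt_min hc one_pos, min_le_right _ _,
    fun ε ρ hε hρ Z hZ hP => ?_⟩
  have hρ0 : 0 ≤ ρ := (abs_nonneg _).trans (hε 0)
  have hρ1 : ρ ≤ 1 := hρ.trans (min_le_right _ _)
  have h4 := h3 ε (fun i => (hε i).trans (hρ.trans (min_le_left _ _))) Z
    (hZ.trans (min_le_left _ _)) hP
  have h5 := h2 ε ρ hε hρ1
  have h6 : (P.map (MvPolynomial.map σ)).eval (MvPolynomial.map σ Φ) = MvPolynomial.map σ (P.eval Φ) :=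
    Polynomial.eval_map_apply _ _
  rw [h6] at h4
  refine h4.trans ?_
  rw [mul_assoc]
  refine mul_le_mul_of_nonneg_left (h5.trans ?_) hC2
  exact mul_le_mul_of_nonneg_left (pow_le_pow_of_le_one hρ0 hρ1 (Nat.le_succ N)) hC1

end Pool.Agent.H4.SX
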