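import Pool.Agent.H4.SX.Defs

/-! # [H4 SX TRC] The number of conditions is smaller than the number of unknowns (pure arithmetic)

`tri_card`: `2 Q j |tri Q j L| ≤ (L + Q + j)²`: for each `p ≤ L / Q` there are `⌊(L - Q p)/j⌋ + 1` values of `q`,
so `2 Q j |tri| ≤ 2 Q ∑_(p ≤ L/Q) (L - Q p + j)`; with `P = L / Q`, `T = Q (P + 1) ≤ L + Q`, the sum is
`T (2 (L + j) + Q - T) ≤ (L + j + Q/2)²` (`T (2 S - T) ≤ S²`, `S = L + j + Q/2`; in integers multiply by 4).
Alternatively unit squares: the squares `[p, p+1] × [q, q+1]` lie in the triangle `Q p + j q ≤ L + Q + j`.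

`exists_V`: `s = ` degree, `L = Q ((2 j + 1) V + 1)`, so `L + Q + j = (2 j + 1) Q V + E`, `E = 2 Q + j`, and
`QQ n (Q V) = ∑_(k < n) (Q V + 1 - k) ≥ n (Q V + 1 - n)`. Since `2 s ≤ n - 1` and `j ≥ n`:
`s (2 j + 1)² < 2 n j²` (`2 s (2j+1)² ≤ (n-1)(4 j² + 4 j + 1)`, and `(n - 1)(4 j + 1) < 4 j²`).
Enough: `s ((2j+1) Q V + E)² < 2 Q j · j V · n (Q V + 1 - n)`. The difference is
`Q² V² (2 n j² - s (2j+1)²) - s (2 (2j+1) Q V E + E²) - 2 Q j² n (n - 1) V`, the first bracket is `≥ 1`; take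
`V = s (2 (2j+1) E + E²) + 2 j² n (n - 1) + n`. -/

namespace Pool.Agent.H4.SX

open Finset Polynomial Pool.Agent.H37.TE Pool.Agent.H98.TE Pool.Agent.H4.TP

private theorem trc_le (Q j L : ℕ) (hQ : 1 ≤ Q) (hj : 1 ≤ j) :
    (tri Q j L).card ≤ ∑ p ∈ range (L / Q + 1), ((L - Q * p) / j + 1) := by
  have h1 : (tri Q j L).card ≤
      ((range (L / Q + 1)).sigma fun p => range ((L - Q * p) / j + 1)).card := by
    refine Finset.card_le_card_of_injOn (fun pq => (⟨pq.1, pq.2⟩ : Σ _ : ℕ, ℕ)) ?_ ?_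
    · intro pq hpq
      have h2 : Q * pq.1 + j * pq.2 ≤ L := by
        have := (Finset.mem_filter.1 (Finset.mem_coe.1 hpq)).2
        exact this
      rw [Finset.mem_coe, Finset.mem_sigma, Finset.mem_range, Finset.mem_range]
      constructor
      · show pq.1 < L / Q + 1
        rw [Nat.lt_succ_iff, Nat.le_div_iff_mul_le (by omega)]
        nlinarith [Nat.zero_le (j * pq.2)]
      · show pq.2 < (L - Q * pq.1) / j + 1
        rw [Nat.lt_succ_iff, Nat.le_div_iff_mul_le (by omega), mul_comm]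
        omega
    · intro a _ b _ hab
      have h3 : a.1 = b.1 ∧ a.2 = b.2 := by
        simpa using hab
      exact Prod.ext h3.1 h3.2
  rw [Finset.card_sigma] at h1
  simpa using h1

private theorem trc_sum (a Q : ℤ) (m : ℕ) :
    2 * ∑ p ∈ range m, (a - Q * p) = m * (2 * a + Q - Q * m) := by
  induction m with
  | zero => simp
  | succ m ih =>
    rw [Finset.sum_range_succ, mul_add, ih]
    push_cast
    ring

theorem tri_card (Q j L : ℕ) (hQ : 1 ≤ Q) (hj : 1 ≤ j) :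
    2 * Q * j * (tri Q j L).card ≤ (L + Q + j) ^ 2 := by
  have h1 := trc_le Q j L hQ hj
  have h2 : j * (tri Q j L).card ≤ ∑ p ∈ range (L / Q + 1), (L - Q * p + j) := by
    refine (Nat.mul_le_mul_left j h1).trans ?_
    rw [Finset.mul_sum]
    refine Finset.sum_le_sum fun p _ => ?_
    have h3 := Nat.mul_div_le (L - Q * p) j
    rw [mul_add, mul_one]
    exact Nat.add_le_add_right h3 j
  have h3 : ((∑ p ∈ range (L / Q + 1), (L - Q * p + j) : ℕ) : ℤ) =
      ∑ p ∈ range (L / Q + 1), (((L : ℤ) + j) - Q * p) := by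
    rw [Nat.cast_sum]
    refine Finset.sum_congr rfl fun p hp => ?_
    have h4 : Q * p ≤ L := by
      have h5 : p ≤ L / Q := Nat.lt_succ_iff.1 (Finset.mem_range.1 hp)
      rw [Nat.le_div_iff_mul_le (by omega)] at h5
      rw [mul_comm]
      exact h5
    rw [Nat.cast_add, Nat.cast_sub h4]
    push_cast
    ring
  have h4 : (j : ℤ) * ((tri Q j L).card : ℤ) ≤
      ∑ p ∈ range (L / Q + 1), (((L : ℤ) + j) - Q * p) := by
    rw [← h3]
    exact_mod_cast h2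
  have h5 := trc_sum ((L : ℤ) + j) Q (L / Q + 1)
  have h6 : (0 : ℤ) ≤ Q := Int.natCast_nonneg Q
  have h7 : (2 : ℤ) * Q * j * ((tri Q j L).card : ℤ) ≤ ((L : ℤ) + Q + j) ^ 2 := by
    have h8 := mul_le_mul_of_nonneg_left h4 h6
    have h9 : (2 : ℤ) * Q * j * ((tri Q j L).card : ℤ) =
        2 * (Q * (j * ((tri Q j L).card : ℤ))) := by ring
    rw [h9]
    have h10 : 2 * ((Q : ℤ) * ∑ p ∈ range (L / Q + 1), (((L : ℤ) + j) - Q * p)) =
        Q * (((L / Q + 1 : ℕ) : ℤ) * (2 * ((L : ℤ) + j) + Q - Q * ((L / Q + 1 : ℕ) : ℤ))) := by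
      rw [← h5]
      ring
    generalize ((L / Q + 1 : ℕ) : ℤ) = m at h10
    have hL : (0 : ℤ) ≤ L := Int.natCast_nonneg L
    have hj' : (0 : ℤ) ≤ j := Int.natCast_nonneg j
    nlinarith [sq_nonneg (2 * ((L : ℤ) + j) + Q - 2 * (Q * m)), mul_nonneg h6 hL,
      mul_nonneg h6 hj', mul_nonneg h6 h6]
  exact_mod_cast h7

theorem exists_V (n s Q j : ℕ) (hs : 2 * s < n) (hQ : 1 ≤ Q) (hj : n ≤ j) :
    ∃ V : ℕ, 1 ≤ V ∧ n ≤ Q * V ∧
      s * (tri Q j (Q * ((2 * j + 1) * V + 1))).card < (j * V) * QQ n (Q * V) := by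
  obtain ⟨E, hE⟩ : ∃ E, E = 2 * Q + j := ⟨_, rfl⟩
  obtain ⟨W, hW⟩ : ∃ W, W = s * (2 * (2 * j + 1) * E + E ^ 2) + 2 * j ^ 2 * n * (n - 1) :=
    ⟨_, rfl⟩
  refine ⟨W + n, by omega, ?_, ?_⟩
  · nlinarith [Nat.zero_le W]
  · obtain ⟨V, hV⟩ : ∃ V, V = W + n := ⟨_, rfl⟩
    rw [← hV]
    have hVn : n ≤ V := by omega
    have hQV : V ≤ Q * V := Nat.le_mul_of_pos_left V (by omega)
    have h1 := tri_card Q j (Q * ((2 * j + 1) * V + 1)) hQ (by omega)
    have h2 : n * (Q * V + 1 - n) ≤ QQ n (Q * V) := by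
      unfold QQ
      calc n * (Q * V + 1 - n) = ∑ _k : Fin n, (Q * V + 1 - n) := by
            rw [Finset.sum_const, Finset.card_univ, Fintype.card_fin, smul_eq_mul]
        _ ≤ _ := Finset.sum_le_sum fun k _ => by
            have := k.2
            omega
    have h3 : ((n * (Q * V + 1 - n) : ℕ) : ℤ) = n * ((Q : ℤ) * V + 1 - n) := by
      rw [Nat.cast_mul, Nat.cast_sub (by omega)]
      push_cast
      ring
    have h2' : (n : ℤ) * ((Q : ℤ) * V + 1 - n) ≤ (QQ n (Q * V) : ℤ) := by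
      rw [← h3]
      exact_mod_cast h2
    have h1' : (2 : ℤ) * Q * j * ((tri Q j (Q * ((2 * j + 1) * V + 1))).card : ℤ) ≤
        ((2 * j + 1) * (Q * V) + E) ^ 2 := by
      have h4 : ((2 * Q * j * (tri Q j (Q * ((2 * j + 1) * V + 1))).card : ℕ) : ℤ) ≤
          (((Q * ((2 * j + 1) * V + 1) + Q + j) ^ 2 : ℕ) : ℤ) := by exact_mod_cast h1
      have h5 : (((Q * ((2 * j + 1) * V + 1) + Q + j) ^ 2 : ℕ) : ℤ) =
          ((2 * (j : ℤ) + 1) * (Q * V) + E) ^ 2 := by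
        rw [hE]
        push_cast
        ring
      rw [h5] at h4
      push_cast at h4
      exact h4
    -- integers
    have hn1 : (1 : ℤ) ≤ n := by exact_mod_cast (by omega : 1 ≤ n)
    have hs0 : (0 : ℤ) ≤ s := Int.natCast_nonneg s
    have hs' : 2 * (s : ℤ) ≤ n - 1 := by
      have : 2 * s + 1 ≤ n := hs
      have h6 : (2 * (s : ℤ) + 1) ≤ n := by exact_mod_cast this
      linarith
    have hj' : (n : ℤ) ≤ j := by exact_mod_cast hj
    have hW' : (W : ℤ) = s * (2 * (2 * (j : ℤ) + 1) * E + (E : ℤ) ^ 2) +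
        2 * (j : ℤ) ^ 2 * n * (n - 1) := by
      rw [hW]
      push_cast [Nat.cast_sub (by omega : 1 ≤ n)]
      ring
    have hX : (W : ℤ) + n ≤ (Q : ℤ) * V := by
      have : W + n ≤ Q * V := by omega
      exact_mod_cast this
    have hE0 : (0 : ℤ) ≤ E := Int.natCast_nonneg E
    have hQ' : (1 : ℤ) ≤ Q := by exact_mod_cast hQ
    have hbr : (s : ℤ) * (2 * j + 1) ^ 2 + 1 ≤ 2 * n * (j : ℤ) ^ 2 := by
      have h7 : 2 * (s : ℤ) * (2 * j + 1) ^ 2 ≤ (n - 1) * (2 * (j : ℤ) + 1) ^ 2 :=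
        mul_le_mul_of_nonneg_right hs' (sq_nonneg _)
      have h8 : ((n : ℤ) - 1) * (4 * j + 1) ≤ (j - 1) * (4 * j + 1) :=
        mul_le_mul_of_nonneg_right (by linarith) (by linarith)
      nlinarith
    have hW0 : (0 : ℤ) ≤ W := Int.natCast_nonneg W
    obtain ⟨X, hXd⟩ : ∃ X : ℤ, X = (Q : ℤ) * V := ⟨_, rfl⟩
    rw [← hXd] at hX h1' h2'
    have hX1 : 1 ≤ X := by linarith
    have hmain : (s : ℤ) * ((2 * j + 1) * X + E) ^ 2 < 2 * (j : ℤ) ^ 2 * X * (n * (X + 1 - n)) := by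
      have h9 : 0 ≤ X ^ 2 * (2 * n * (j : ℤ) ^ 2 - s * (2 * j + 1) ^ 2 - 1) :=
        mul_nonneg (sq_nonneg _) (by linarith)
      have h10 : 0 ≤ (s : ℤ) * (E : ℤ) ^ 2 * (X - 1) :=
        mul_nonneg (mul_nonneg hs0 (sq_nonneg _)) (by linarith)
      have h11 : 0 < X * (X - W) := mul_pos (by linarith) (by linarith)
      have h12 : (s : ℤ) * ((2 * j + 1) * X + E) ^ 2 = 2 * (j : ℤ) ^ 2 * X * (n * (X + 1 - n)) -
          X ^ 2 * (2 * n * (j : ℤ) ^ 2 - s * (2 * j + 1) ^ 2 - 1) -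
          (s : ℤ) * (E : ℤ) ^ 2 * (X - 1) - X * (X - W) := by
        rw [hW']
        ring
      linarith
    have hfin : (2 * (Q : ℤ) * j) * (s * ((tri Q j (Q * ((2 * j + 1) * V + 1))).card : ℤ)) <
        (2 * (Q : ℤ) * j) * ((j * V) * (QQ n (Q * V) : ℤ)) := by
      have h13 := mul_le_mul_of_nonneg_left h1' hs0
      have h14 : 0 ≤ 2 * (j : ℤ) ^ 2 * X := by positivity
      have h15 := mul_le_mul_of_nonneg_left h2' h14
      have h16 : (2 * (Q : ℤ) * j) * ((j * V) * (QQ n (Q * V) : ℤ)) =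
          2 * (j : ℤ) ^ 2 * X * (QQ n (Q * V) : ℤ) := by
        rw [hXd]
        ring
      rw [h16]
      calc (2 * (Q : ℤ) * j) * (s * ((tri Q j (Q * ((2 * j + 1) * V + 1))).card : ℤ)) =
          s * (2 * (Q : ℤ) * j * ((tri Q j (Q * ((2 * j + 1) * V + 1))).card : ℤ)) := by ring
        _ ≤ _ := h13
        _ < _ := hmain
        _ ≤ _ := h15
    have hpos : (0 : ℤ) < 2 * (Q : ℤ) * j := by
      have : (1 : ℤ) ≤ j := by linarith
      positivity
    have := lt_of_mul_lt_mul_left hfin hpos.le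
    exact_mod_cast this

end Pool.Agent.H4.SX
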