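import Pool.Agent.H4.SX.PKE
import Pool.Agent.H4.SX.NWK
import Pool.Agent.H4.SX.LAK
import Pool.Agent.H4.SX.TRC
import Pool.Agent.H4.SX.EST

/-! # [H4 SX AXW] The auxiliary polynomial of a window

`K = ℚ⟮θ⟯ ⊆ ℝ` (`IntermediateField.adjoin ℚ {θ}`), `σ` its inclusion, `θK = AdjoinSimple.gen`; `θ` is integral over
`ℚ` (root of `topq ≠ 0`, `topm_eq`), `finrank ℚ K = (minpoly ℚ θ).natDegree = s` (`IntermediateField.adjoin.finrank`),
`2 s < n`. `PK K n m F` at `0` is `(topq n m F).map (algebraMap ℚ K)` (`PK_zero`), its image under `σ` is `topm n m F`, so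
`θK` is a simple root (`σ` injective). `V` from `exists_V n s Q j`, `I = j V`, `M = Q V`,
`L = Q I + (j+1) M + Q = Q ((2j+1) V + 1)`. `newtonK σ (PK K n m F) θK .. L` gives `Φ, C, c0`. `exists_c` with
`T = tri Q j L` gives `c ≠ 0`; `est_pt` gives `C'`. `G = relG c` (`relG_ne`, `relG_TD`, `relG_deg`, `relG_ev`).
For `a ≥ A0`, `ev3 a x y F = 0`, `|y| ≤ |x|`, `a^j ≤ |x|^Q ≤ a^(j+1)`, `|y/x - θ| ≤ c0`: `x ≠ 0`. Let
`ρ = max (1/a) (1/|x|)`: `ρ^Q ≤ 1/a` (`(1/|x|)^Q ≤ 1/a^j ≤ 1/a`; `(1/a)^Q ≤ 1/a`). `ρ ≤ c0` for `a ≥ A0`: from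
`ρ^Q ≤ 1/a ≤ c0^Q`. `Z = y/x`: `PK_eval` and `ev3_cast` give that `Z` is a root, so `newtonK` gives
`|Z - Φ| ≤ C ρ^L` (`ε = ![1/a, 1/x]`), `est_pt` gives `|ev3 a x y (relG c)| ≤ C'/a < 1` (`Z * x = y`), an integer
of absolute value `< 1`. -/

namespace Pool.Agent.H4.SX

open Finset Polynomial Pool.Agent.H37.TE Pool.Agent.H98.TE Pool.Agent.H4.TP

private theorem aux_K {n m : ℕ} {F : ℤ[X][X][X]} (H : DegF n m F) (hn : 1 ≤ n) (θ : ℝ)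
    (h0 : (topm n m F).eval θ = 0) (h1 : (topm n m F).derivative.eval θ ≠ 0)
    {K : Type} [Field K] [Algebra ℚ K] [FiniteDimensional ℚ K] (σ : K →+* ℝ) (g : K) (hg : σ g = θ)
    (hθ : 2 * Module.finrank ℚ K < n) (Q j : ℕ) (hQ : 1 ≤ Q) (hj : n ≤ j) :
    ∃ (G : ℤ[X][X][X]) (D A0 : ℕ) (c0 : ℝ), 0 < c0 ∧ G ≠ 0 ∧ TD D D D G ∧ G.natDegree < n ∧
      ∀ a : ℕ, A0 ≤ a → ∀ x y : ℤ, ev3 (a : ℤ) x y F = 0 → |y| ≤ |x| →
        (a : ℤ) ^ j ≤ |x| ^ Q → |x| ^ Q ≤ (a : ℤ) ^ (j + 1) → |(y : ℝ) / x - θ| ≤ c0 →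
        ev3 (a : ℤ) x y G = 0 := by
  have hcz : CharZero K := algebraRat.charZero K
  have hpk : ∀ (φ : ℚ →+* K) (p : ℚ[X]), σ ((p.map φ).eval g) =
      (p.map (algebraMap ℚ ℝ)).eval θ := by
    intro φ p
    rw [eval_map, hom_eval₂, hg, eval_map]
    congr 1
    exact Subsingleton.elim _ _
  have hP0 : (((PK K n m F).map (MvPolynomial.eval (0 : Fin 2 → K))).eval g) = 0 := by
    apply σ.injective
    rw [PK_zero, hpk, ← topm_eq, h0, map_zero]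
  have hP1 : (((PK K n m F).map (MvPolynomial.eval (0 : Fin 2 → K))).derivative.eval g) ≠ 0 := by
    intro h
    apply h1
    rw [PK_zero, derivative_map] at h
    have h2 := congrArg σ h
    rw [hpk, map_zero, ← derivative_map, ← topm_eq] at h2
    exact h2
  obtain ⟨V, hV1, hV2, hV⟩ := exists_V n (Module.finrank ℚ K) Q j hθ hQ hj
  obtain ⟨L, hL⟩ : ∃ L, L = Q * (j * V) + (j + 1) * (Q * V) + Q := ⟨_, rfl⟩
  have hL' : Q * ((2 * j + 1) * V + 1) = L := by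
    rw [hL]
    ring
  rw [hL'] at hV
  obtain ⟨Φ, C, c0, hC, hc0, hc1, hN⟩ := newtonK σ (PK K n m F) g hP0 hP1 L
  obtain ⟨c, hc, hcT⟩ := exists_c (j * V) n (Q * V) Φ (tri Q j L) hV
  rw [hL] at hcT
  obtain ⟨C', hC', hest⟩ := est_pt σ c Φ Q j hQ (by omega) C hC hcT
  refine ⟨relG c, j * V + Q * V + n, ⌈C'⌉₊ + ⌈1 / c0 ^ Q⌉₊ + 2, c0, hc0, relG_ne c hc,
    relG_TD c le_rfl, relG_deg c hn, fun a ha x y hF hyx ha1 ha2 hZ => ?_⟩
  have haN : 1 ≤ a := by omega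
  have haR : (1 : ℝ) ≤ a := by exact_mod_cast haN
  have ha0 : (0 : ℝ) < a := by linarith
  have hx0 : x ≠ 0 := by
    rintro rfl
    rw [abs_zero, zero_pow (by omega)] at ha1
    have : (0 : ℤ) < (a : ℤ) ^ j := by positivity
    omega
  have hxR : (1 : ℝ) ≤ |(x : ℝ)| := by
    have := Int.one_le_abs hx0
    exact_mod_cast this
  have hx1 : (0 : ℝ) < |(x : ℝ)| := by linarith
  have hxne : (x : ℝ) ≠ 0 := by exact_mod_cast hx0
  have hb1 : (a : ℝ) ^ j ≤ |(x : ℝ)| ^ Q := by exact_mod_cast ha1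
  have hb2 : |(x : ℝ)| ^ Q ≤ (a : ℝ) ^ (j + 1) := by exact_mod_cast ha2
  obtain ⟨ρ, hρ⟩ : ∃ ρ : ℝ, ρ = max (1 / (a : ℝ)) (1 / |(x : ℝ)|) := ⟨_, rfl⟩
  have hr1 : 1 / (a : ℝ) ≤ ρ := by rw [hρ]; exact le_max_left _ _
  have hr2 : 1 / |(x : ℝ)| ≤ ρ := by rw [hρ]; exact le_max_right _ _
  have hr0 : 0 ≤ ρ := le_trans (by positivity) hr1
  have hq1 : (1 / (a : ℝ)) ^ Q ≤ 1 / a :=
    pow_le_of_le_one (by positivity) (by rw [div_le_one ha0]; exact haR) (by omega)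
  have hq2 : (1 / |(x : ℝ)|) ^ Q ≤ 1 / a := by
    rw [div_pow, one_pow]
    apply one_div_le_one_div_of_le ha0
    refine le_trans ?_ hb1
    calc (a : ℝ) = (a : ℝ) ^ 1 := (pow_one _).symm
      _ ≤ (a : ℝ) ^ j := pow_le_pow_right₀ haR (by omega)
  have hrQ : ρ ^ Q ≤ 1 / a := by
    rw [hρ]
    rcases max_choice (1 / (a : ℝ)) (1 / |(x : ℝ)|) with h | h
    · rw [h]
      exact hq1
    · rw [h]
      exact hq2
  have haC : 1 / c0 ^ Q ≤ (a : ℝ) := by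
    have h2 := Nat.le_ceil (1 / c0 ^ Q)
    have h3 : ((⌈1 / c0 ^ Q⌉₊ : ℕ) : ℝ) ≤ (a : ℝ) := by exact_mod_cast (by omega)
    linarith
  have haC' : C' < (a : ℝ) := by
    have h2 := Nat.le_ceil C'
    have h3 : ((⌈C'⌉₊ : ℕ) : ℝ) + 1 ≤ (a : ℝ) := by exact_mod_cast (by omega)
    linarith
  have hac : 1 / (a : ℝ) ≤ c0 ^ Q := by
    have h2 : (0 : ℝ) < c0 ^ Q := by positivity
    rw [div_le_iff₀ h2] at haC
    rw [div_le_iff₀ ha0]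
    linarith
  have hrc : ρ ≤ c0 := by
    rw [← pow_le_pow_iff_left₀ hr0 hc0.le (by omega : Q ≠ 0)]
    exact hrQ.trans hac
  have hroot : (((PK K n m F).map (MvPolynomial.map σ)).map
      (MvPolynomial.eval ![1 / (a : ℝ), 1 / (x : ℝ)])).eval ((y : ℝ) / x) = 0 := by
    rw [PK_eval H σ (t := (a : ℝ)) (x := (x : ℝ)) (y := (y : ℝ)) ha0.ne' hxne]
    have h2 := ev3_cast H (a : ℤ) x y
    rw [hF] at h2
    rw [Int.cast_natCast] at h2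
    rw [h2, Int.cast_zero, mul_zero]
  have hZ1 : |(y : ℝ) / x| ≤ 1 := by
    rw [abs_div, div_le_one hx1]
    exact_mod_cast hyx
  have hnear := hN ![1 / (a : ℝ), 1 / (x : ℝ)] ρ (by
    intro i
    fin_cases i
    · show |1 / (a : ℝ)| ≤ ρ
      rw [abs_of_nonneg (by positivity)]
      exact hr1
    · show |1 / (x : ℝ)| ≤ ρ
      rw [abs_div, abs_one]
      exact hr2) hrc ((y : ℝ) / x) (by rw [hg]; exact hZ) hroot
  rw [hL] at hnear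
  have he := hest (a : ℝ) (x : ℝ) ((y : ℝ) / x) ρ haR hxR hb1 hb2 hZ1 hr1 hr2 (hrc.trans hc1) hrQ hnear
  have hsum : ∑ l : Lam (j * V) n (Q * V), (c l : ℝ) * ((a : ℝ) ^ (l.1 : ℕ) * (x : ℝ) ^ (l.2.2 : ℕ) *
      ((y : ℝ) / x * x) ^ (l.2.1 : ℕ)) = ((ev3 (a : ℤ) x y (relG c) : ℤ) : ℝ) := by
    rw [relG_ev, div_mul_cancel₀ _ hxne]
    push_cast
    rfl
  rw [hsum] at he
  have h5 : |((ev3 (a : ℤ) x y (relG c) : ℤ) : ℝ)| < 1 := by
    refine he.trans_lt ?_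
    rw [div_lt_one ha0]
    exact haC'
  have h6 : |ev3 (a : ℤ) x y (relG c)| < 1 := by exact_mod_cast h5
  exact Int.abs_lt_one_iff.1 h6

theorem aux_window {n m : ℕ} {F : ℤ[X][X][X]} (H : DegF n m F) (hn : 1 ≤ n) (θ : ℝ)
    (h0 : (topm n m F).eval θ = 0) (h1 : (topm n m F).derivative.eval θ ≠ 0)
    (hθ : 2 * (minpoly ℚ θ).natDegree < n) (Q j : ℕ) (hQ : 1 ≤ Q) (hj : n ≤ j) :
    ∃ (G : ℤ[X][X][X]) (D A0 : ℕ) (c0 : ℝ), 0 < c0 ∧ G ≠ 0 ∧ TD D D D G ∧ G.natDegree < n ∧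
      ∀ a : ℕ, A0 ≤ a → ∀ x y : ℤ, ev3 (a : ℤ) x y F = 0 → |y| ≤ |x| →
        (a : ℤ) ^ j ≤ |x| ^ Q → |x| ^ Q ≤ (a : ℤ) ^ (j + 1) → |(y : ℝ) / x - θ| ≤ c0 →
        ev3 (a : ℤ) x y G = 0 := by
  have hq0 : topq n m F ≠ 0 := by
    intro h
    apply h1
    rw [topm_eq, h, Polynomial.map_zero, derivative_zero, eval_zero]
  have hint : IsIntegral ℚ θ := by
    have h2 : IsAlgebraic ℚ θ := ⟨topq n m F, hq0, by
      rw [aeval_def, ← eval_map, ← topm_eq]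
      exact h0⟩
    exact h2.isIntegral
  haveI hfd : FiniteDimensional ℚ (IntermediateField.adjoin ℚ {θ}) :=
    IntermediateField.adjoin.finiteDimensional hint
  have hfr : Module.finrank ℚ (IntermediateField.adjoin ℚ {θ}) = (minpoly ℚ θ).natDegree :=
    IntermediateField.adjoin.finrank hint
  exact aux_K H hn θ h0 h1 (K := IntermediateField.adjoin ℚ {θ})
    (algebraMap (IntermediateField.adjoin ℚ {θ}) ℝ) (IntermediateField.AdjoinSimple.gen ℚ θ)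
    (IntermediateField.AdjoinSimple.algebraMap_gen ℚ θ) (by rw [hfr]; exact hθ) Q j hQ hj

end Pool.Agent.H4.SX
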