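import Pool.Agent.H37.TE.Defs
import Pool.Agent.H4.TP.BND

/-! # [H4 SX COR] At most `K` points on each member

`R, R' ≠ 0` in `ℤ[t][x]`. `k = R.natDegree`, leading coefficient `r(t) ≠ 0`: `r(a) ≠ 0` for `|a| ≥ A0` (finitely many roots),
so `R(a, X) ≠ 0` has at most `k` roots, each of absolute value at most `1 + ∑_i |(R.coeff i)(a)|` (leading coefficient an
integer `≠ 0`), at most `|a|^M` for `|a| ≥ A0`, `|a| ≥ 2` (a polynomial `p ∈ ℤ[t]` satisfies `|p(a)| ≤ S |a|^d`, `S = ∑ |p_i|`,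
`d = deg p`). The same for `R'`. The set of the points is contained in
`(roots of R(a, ·)) × (roots of R'(a, ·))`: at most `k k'` points. `K` = a large number. -/

namespace Pool.Agent.H4.SX

open Finset Polynomial Pool.Agent.H37.TE

private theorem cor_bd (p : ℤ[X]) : ∃ M : ℕ, ∀ a : ℤ, 2 ≤ |a| → |p.eval a| ≤ |a| ^ M := by
  obtain ⟨M1, h1⟩ := Pool.Agent.H4.TP.bnd1 p
  obtain ⟨M2, h2⟩ := Pool.Agent.H4.TP.bnd1 (p.comp (-X))
  refine ⟨M1 + M2, fun a ha => ?_⟩
  have hab : 1 ≤ |a| := by omega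
  rcases abs_choice a with h | h
  · have h3 := h1 a.natAbs (by omega)
    have h4 : ((a.natAbs : ℕ) : ℤ) = |a| := (Int.abs_eq_natAbs a).symm
    rw [h4, h] at h3
    rw [h]
    refine h3.trans (pow_le_pow_right₀ (by omega) (by omega))
  · have h3 := h2 a.natAbs (by omega)
    have h4 : ((a.natAbs : ℕ) : ℤ) = |a| := (Int.abs_eq_natAbs a).symm
    rw [h4, eval_comp, eval_neg, eval_X, h, neg_neg] at h3
    rw [h]
    refine h3.trans (pow_le_pow_right₀ (by omega) (by omega))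

private theorem cor_nz {p : ℤ[X]} (hp : p ≠ 0) : ∃ A : ℕ, ∀ a : ℤ, (A : ℤ) ≤ |a| → p.eval a ≠ 0 := by
  obtain ⟨M1, h1⟩ := Pool.Agent.H4.TP.nz hp
  have hp2 : p.comp (-X) ≠ 0 := by
    intro h0
    apply hp
    have h2 := congrArg (fun q => q.comp (-X)) h0
    simp only [comp_assoc, neg_comp, X_comp, neg_neg, comp_X, zero_comp] at h2
    exact h2
  obtain ⟨M2, h2⟩ := Pool.Agent.H4.TP.nz hp2
  refine ⟨M1 + M2, fun a ha => ?_⟩
  rcases abs_choice a with h | h
  · have h3 := h1 a.natAbs (by omega)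
    have h4 : ((a.natAbs : ℕ) : ℤ) = |a| := (Int.abs_eq_natAbs a).symm
    rw [h4, h] at h3
    exact h3
  · have h3 := h2 a.natAbs (by omega)
    have h4 : ((a.natAbs : ℕ) : ℤ) = |a| := (Int.abs_eq_natAbs a).symm
    rw [h4, eval_comp, eval_neg, eval_X, h, neg_neg] at h3
    exact h3

private theorem cor_root {q : ℤ[X]} (hq : q ≠ 0) {x : ℤ} (hx : q.eval x = 0) :
    |x| ≤ 1 + ∑ i ∈ range q.natDegree, |q.coeff i| := by
  obtain ⟨S, hS⟩ : ∃ S, S = ∑ i ∈ range q.natDegree, |q.coeff i| := ⟨_, rfl⟩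
  rw [← hS]
  have hS0 : 0 ≤ S := by
    rw [hS]
    exact sum_nonneg fun _ _ => abs_nonneg _
  by_contra hc
  rw [not_le] at hc
  have hx1 : 1 ≤ |x| := by omega
  rw [eval_eq_sum_range, sum_range_succ] at hx
  have hl : 1 ≤ |q.coeff q.natDegree| := by
    rw [coeff_natDegree]
    exact Int.one_le_abs (leadingCoeff_ne_zero.2 hq)
  rcases Nat.eq_zero_or_pos q.natDegree with h0 | h0
  · rw [h0, range_zero, sum_empty, zero_add, pow_zero, mul_one, ← h0] at hx
    rw [hx, abs_zero] at hl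
    omega
  · have h1 : q.coeff q.natDegree * x ^ q.natDegree = -∑ i ∈ range q.natDegree, q.coeff i * x ^ i := by
      linarith
    have h2 := congrArg (fun z : ℤ => |z|) h1
    simp only [abs_mul, abs_neg, abs_pow] at h2
    have h3 : |∑ i ∈ range q.natDegree, q.coeff i * x ^ i| ≤ S * |x| ^ (q.natDegree - 1) := by
      refine (abs_sum_le_sum_abs _ _).trans ?_
      rw [hS, sum_mul]
      refine sum_le_sum fun i hi => ?_
      rw [mem_range] at hi
      rw [abs_mul, abs_pow]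
      exact mul_le_mul_of_nonneg_left (pow_le_pow_right₀ hx1 (by omega)) (abs_nonneg _)
    have h4 : |x| ^ q.natDegree = |x| ^ (q.natDegree - 1) * |x| := by
      rw [← pow_succ, Nat.sub_add_cancel h0]
    have h5 : |x| ^ q.natDegree ≤ |q.coeff q.natDegree| * |x| ^ q.natDegree :=
      le_mul_of_one_le_left (by positivity) hl
    have h6 : 0 < |x| ^ (q.natDegree - 1) := by positivity
    have h7 : |x| ^ (q.natDegree - 1) * |x| ≤ |x| ^ (q.natDegree - 1) * S := by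
      calc |x| ^ (q.natDegree - 1) * |x| = |x| ^ q.natDegree := h4.symm
        _ ≤ |q.coeff q.natDegree| * |x| ^ q.natDegree := h5
        _ = |∑ i ∈ range q.natDegree, q.coeff i * x ^ i| := h2
        _ ≤ S * |x| ^ (q.natDegree - 1) := h3
        _ = |x| ^ (q.natDegree - 1) * S := mul_comm _ _
    have h8 := le_of_mul_le_mul_left h7 h6
    omega

private theorem cor_fib {R : ℤ[X][X]} (hR : R ≠ 0) : ∃ K : ℕ, 2 ≤ K ∧ ∀ a : ℤ, (K : ℤ) ≤ |a| →
    ∃ S : Finset ℤ, S.card ≤ K ∧ ∀ x : ℤ, evalEval a x R = 0 → x ∈ S ∧ |x| ≤ |a| ^ K := by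
  classical
  obtain ⟨A, hA⟩ := cor_nz (leadingCoeff_ne_zero.2 hR)
  choose M hM using fun i => cor_bd (R.coeff i)
  obtain ⟨N, hN⟩ : ∃ N, N = ∑ i ∈ range (R.natDegree + 1), M i := ⟨_, rfl⟩
  refine ⟨A + N + R.natDegree + 3, by omega, fun a ha => ?_⟩
  obtain ⟨q, hq⟩ : ∃ q : ℤ[X], q = R.map (evalRingHom a) := ⟨_, rfl⟩
  have hlc : q.coeff R.natDegree ≠ 0 := by
    rw [hq, coeff_map, coeff_natDegree]
    exact hA a (by omega)
  have hq0 : q ≠ 0 := by
    intro h0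
    rw [h0, coeff_zero] at hlc
    exact hlc rfl
  have hqd : q.natDegree = R.natDegree := by
    refine natDegree_eq_of_le_of_coeff_ne_zero ?_ hlc
    rw [hq]
    exact natDegree_map_le
  have ha1 : 1 ≤ |a| := by omega
  refine ⟨q.roots.toFinset, ?_, fun x hx => ?_⟩
  · refine (Multiset.toFinset_card_le _).trans ((card_roots' _).trans ?_)
    omega
  · have hx2 : q.eval x = 0 := by
      rw [hq, map_evalRingHom_eval]
      exact hx
    refine ⟨?_, ?_⟩
    · rw [Multiset.mem_toFinset, mem_roots hq0]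
      exact hx2
    · refine (cor_root hq0 hx2).trans ?_
      rw [hqd]
      have h1 : ∑ i ∈ range R.natDegree, |q.coeff i| ≤ (R.natDegree : ℤ) * |a| ^ N := by
        calc ∑ i ∈ range R.natDegree, |q.coeff i| ≤ ∑ _i ∈ range R.natDegree, |a| ^ N := by
              refine sum_le_sum fun i hi => ?_
              rw [mem_range] at hi
              rw [hq, coeff_map, coe_evalRingHom]
              refine (hM i a (by omega)).trans (pow_le_pow_right₀ ha1 ?_)
              rw [hN]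
              exact single_le_sum (f := M) (fun _ _ => Nat.zero_le _) (mem_range.2 (by omega))
          _ = (R.natDegree : ℤ) * |a| ^ N := by
              rw [sum_const, card_range, nsmul_eq_mul]
      have h2 : 1 ≤ |a| ^ N := one_le_pow₀ ha1
      calc 1 + ∑ i ∈ range R.natDegree, |q.coeff i| ≤ |a| ^ N + (R.natDegree : ℤ) * |a| ^ N := by
            linarith
        _ = ((R.natDegree : ℤ) + 1) * |a| ^ N := by ring
        _ ≤ |a| * |a| ^ N := by
            refine mul_le_mul_of_nonneg_right ?_ (by positivity)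
            push_cast at ha
            omega
        _ = |a| ^ (N + 1) := by ring
        _ ≤ _ := pow_le_pow_right₀ ha1 (by omega)

theorem fibre_bd {F : ℤ[X][X][X]} {R R' : ℤ[X][X]} (hR : R ≠ 0) (hR' : R' ≠ 0)
    (hz : ∀ a x y : ℤ, ev3 a x y F = 0 → evalEval a x R = 0 ∧ evalEval a y R' = 0) :
    ∃ K : ℕ, ∀ a : ℤ, (K : ℤ) ≤ |a| → {p : ℤ × ℤ | ev3 a p.1 p.2 F = 0}.Finite ∧
      {p : ℤ × ℤ | ev3 a p.1 p.2 F = 0}.ncard ≤ K ∧
      ∀ x y : ℤ, ev3 a x y F = 0 → |x| ≤ |a| ^ K ∧ |y| ≤ |a| ^ K := by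
  classical
  obtain ⟨K1, hK1, h1⟩ := cor_fib hR
  obtain ⟨K2, hK2, h2⟩ := cor_fib hR'
  refine ⟨K1 * K2 + K1 + K2, fun a ha => ?_⟩
  push_cast at ha
  have hK : (0 : ℤ) ≤ (K1 : ℤ) * K2 := by positivity
  have ha1 : 1 ≤ |a| := by omega
  obtain ⟨S, hS, hS2⟩ := h1 a (by omega)
  obtain ⟨S', hS', hS2'⟩ := h2 a (by omega)
  have hsub : {p : ℤ × ℤ | ev3 a p.1 p.2 F = 0} ⊆ ((S ×ˢ S' : Finset (ℤ × ℤ)) : Set (ℤ × ℤ)) := by
    intro p hp
    have hp1 : ev3 a p.1 p.2 F = 0 := hp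
    obtain ⟨e1, e2⟩ := hz a p.1 p.2 hp1
    rw [Finset.mem_coe, mem_product]
    exact ⟨(hS2 _ e1).1, (hS2' _ e2).1⟩
  refine ⟨(S ×ˢ S').finite_toSet.subset hsub, ?_, fun x y hxy => ?_⟩
  · calc {p : ℤ × ℤ | ev3 a p.1 p.2 F = 0}.ncard
        ≤ ((S ×ˢ S' : Finset (ℤ × ℤ)) : Set (ℤ × ℤ)).ncard :=
          Set.ncard_le_ncard hsub (S ×ˢ S').finite_toSet
      _ = S.card * S'.card := by rw [Set.ncard_coe_finset, card_product]
      _ ≤ K1 * K2 := Nat.mul_le_mul hS hS'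
      _ ≤ K1 * K2 + K1 + K2 := by omega
  · obtain ⟨e1, e2⟩ := hz a x y hxy
    exact ⟨(hS2 _ e1).2.trans (pow_le_pow_right₀ ha1 (by omega)),
      (hS2' _ e2).2.trans (pow_le_pow_right₀ ha1 (by omega))⟩

end Pool.Agent.H4.SX
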