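import Pool.Agent.H98.TE.SWP
import Pool.Agent.H98.TE.REAL
import Pool.Agent.H4.TP.Defs

/-!
# [H4 SX] MP_821da1_nt, THEOREM X: the integer points of the surface `F(t, x, y) = 0`

`F ∈ ℤ[t][x][y]` as in `Pool/Agent/H4/TP` (`HypG n m F`: total degree `n` in `x, y`, degree `m` in `t`,
irreducible over `ℚ(t)`, the top form `f_m(1, Z)` of the coefficient of `t^m` is squarefree of degree `n`
with non-zero constant coefficient).

THEOREM X. If every real root of `f_m(1, Z)` has degree `< n / 2` over `ℚ` (`HR n m F`), then there are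
`R, R' ≠ 0` in `ℤ[t][x]` with `R(a, x) = 0 = R'(a, y)` for ALL integers `a, x, y` with `F(a, x, y) = 0`.

`PK K n m F`: the polynomial `u^m w^n F(1/u, 1/w, Z/w)` in `u, w` and `Z = y/x` over the field `K`;
at `(u, w) = 0` it is `f_m(1, Z)`.
`tri Q j L`: the pairs `(p, q)` with `Q p + j q ≤ L`.
`psi c Φ = ∑_l c_l u^(I - i) w^(M - k - b) Φ^b` for `l = (i, b, k)` (`t^i x^k y^b`).
-/

namespace Pool.Agent.H4.SX

open Finset Polynomial Pool.Agent.H37.TE Pool.Agent.H98.TE Pool.Agent.H4.TP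

/-- every real root of the top form at `t = ∞` has degree less than `n / 2` over `ℚ` -/
def HR (n m : ℕ) (F : ℤ[X][X][X]) : Prop :=
  ∀ θ : ℝ, (topm n m F).eval θ = 0 → 2 * (minpoly ℚ θ).natDegree < n

/-- the family in the small parameters `u = 1/t` and `w = 1/x` -/
noncomputable def PK (K : Type) [Field K] (n m : ℕ) (F : ℤ[X][X][X]) :
    Polynomial (MvPolynomial (Fin 2) K) :=
  ∑ b ∈ range (n + 1), C (∑ a ∈ range (n + 1 - b), ∑ j ∈ range (m + 1),
    MvPolynomial.C ((cf3 F j a b : ℤ) : K) * ((MvPolynomial.X 0) ^ (m - j) *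
      (MvPolynomial.X 1) ^ (n - a - b))) * X ^ b

/-- the pairs `(p, q)` with `Q p + j q ≤ L` -/
def tri (Q j L : ℕ) : Finset (ℕ × ℕ) :=
  (range (L + 1) ×ˢ range (L + 1)).filter fun pq => Q * pq.1 + j * pq.2 ≤ L

/-- the exponent `(p, q)` -/
noncomputable def ex2 (pq : ℕ × ℕ) : Fin 2 →₀ ℕ := Finsupp.single 0 pq.1 + Finsupp.single 1 pq.2

/-- the function of the relation `c` on the branch `Z = Φ(u, w)` -/
noncomputable def psi {K : Type} [Field K] {I n M : ℕ} (c : Lam I n M → ℤ)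
    (Φ : MvPolynomial (Fin 2) K) : MvPolynomial (Fin 2) K :=
  ∑ l : Lam I n M, MvPolynomial.C ((c l : ℤ) : K) * ((MvPolynomial.X 0) ^ (I - (l.1 : ℕ)) *
    (MvPolynomial.X 1) ^ (M - (l.2.2 : ℕ) - (l.2.1 : ℕ)) * Φ ^ (l.2.1 : ℕ))

end Pool.Agent.H4.SX
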