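import Pool.Agent.H4.SX.Defs

/-! # [H4 SX SMF] Small points are common zeros

`fib F x y = ev3 X (C x) (C y) F ∈ ℤ[t]` (`H98/TE/SML.lean`: `fib_deg`, `fib_eval`), of degree `≤ m`, its coefficient of
`t^i` is `∑_(a + b ≤ n) cf3 F i a b x^a y^b` (`Pool.Agent.H98.TE.ev3_sum`), in absolute value at most
`B max(1,|x|)^n` (`|y| ≤ |x|`), `B = ∑ |cf3 F i a b|`. If `fib ≠ 0` and `fib(a) = 0`, its leading coefficient is an
integer `≠ 0`, so `a ≤ (m + 1) B max(1,|x|)^n` (for `a ≥ 1`: `a^d ≤ |c_d| a^d ≤ ∑_(i<d) |c_i| a^i ≤ (m+1) B max^n a^(d-1)`,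
`d ≥ 1`). With `|x|^(2n) ≤ a` this gives `a² ≤ ((m+1) B)² a`, so `a ≤ ((m+1)B)²`: take `A0 = ((m+1) B)² + 2`. -/

namespace Pool.Agent.H4.SX

open Finset Polynomial Pool.Agent.H37.TE Pool.Agent.H98.TE Pool.Agent.H4.TP

theorem root_le {q : ℤ[X]} {a K : ℤ} (ha : 1 ≤ a) (hK : ∀ i, |q.coeff i| ≤ K) (hq : q ≠ 0)
    (h0 : q.eval a = 0) : a ≤ q.natDegree * K := by
  rcases Nat.eq_zero_or_pos q.natDegree with hd | hd
  · exfalso
    rw [eq_C_of_natDegree_eq_zero hd, eval_C] at h0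
    apply hq
    rw [eq_C_of_natDegree_eq_zero hd, h0, C_0]
  · obtain ⟨e, he⟩ : ∃ e, q.natDegree = e + 1 := ⟨q.natDegree - 1, by omega⟩
    have hlc : 1 ≤ |q.coeff (e + 1)| := by
      apply Int.one_le_abs
      rw [← he]
      exact leadingCoeff_ne_zero.2 hq
    rw [eval_eq_sum_range, he, sum_range_succ] at h0
    have h1 : q.coeff (e + 1) * a ^ (e + 1) = -∑ i ∈ range (e + 1), q.coeff i * a ^ i := by
      linarith
    have h2 : |∑ i ∈ range (e + 1), q.coeff i * a ^ i| ≤ (e + 1 : ℕ) * (K * a ^ e) := by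
      refine (abs_sum_le_sum_abs _ _).trans ?_
      have h3 : ∀ i ∈ range (e + 1), |q.coeff i * a ^ i| ≤ K * a ^ e := by
        intro i hi
        rw [mem_range, Nat.lt_succ_iff] at hi
        rw [abs_mul, abs_pow, abs_of_nonneg (by omega : (0 : ℤ) ≤ a)]
        exact mul_le_mul (hK i) (pow_le_pow_right₀ ha hi) (by positivity)
          ((abs_nonneg _).trans (hK i))
      refine (sum_le_sum h3).trans ?_
      rw [sum_const, card_range, nsmul_eq_mul]
    have h3 : a ^ (e + 1) ≤ (e + 1 : ℕ) * (K * a ^ e) := by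
      calc a ^ (e + 1) ≤ |q.coeff (e + 1)| * a ^ (e + 1) :=
            le_mul_of_one_le_left (by positivity) hlc
        _ = |q.coeff (e + 1) * a ^ (e + 1)| := by
            rw [abs_mul, abs_of_nonneg (by positivity : (0 : ℤ) ≤ a ^ (e + 1))]
        _ ≤ _ := by rw [h1, abs_neg]; exact h2
    have hpos : (0 : ℤ) < a ^ e := by positivity
    rw [he]
    have h4 : a * a ^ e ≤ ((e + 1 : ℕ) * K) * a ^ e := by
      calc a * a ^ e = a ^ (e + 1) := by ring
        _ ≤ _ := h3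
        _ = _ := by ring
    exact le_of_mul_le_mul_right h4 hpos

theorem fib_coeff {n m : ℕ} {F : ℤ[X][X][X]} (H : DegF n m F) (x y : ℤ) (i : ℕ) :
    (fib F x y).coeff i = if i ≤ m then ∑ b ∈ range (n + 1), ∑ a ∈ range (n + 1 - b),
      cf3 F i a b * (x ^ a * y ^ b) else 0 := by
  unfold fib
  rw [Pool.Agent.H98.TE.ev3_sum H]
  simp only [finsetSum_coeff]
  have h1 : ∀ b a j : ℕ, (((cf3 F j a b : ℤ) : ℤ[X]) * (X ^ j * C x ^ a * C y ^ b)).coeff i =
      if i = j then cf3 F j a b * (x ^ a * y ^ b) else 0 := by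
    intro b a j
    have e1 : ((cf3 F j a b : ℤ) : ℤ[X]) * (X ^ j * C x ^ a * C y ^ b) =
        C (cf3 F j a b * (x ^ a * y ^ b)) * X ^ j := by
      rw [map_mul, map_mul, map_pow, map_pow, eq_intCast (C : ℤ →+* ℤ[X]) (cf3 F j a b)]
      ring
    rw [e1, coeff_C_mul, coeff_X_pow, mul_ite, mul_one, mul_zero]
  simp only [h1]
  split_ifs with hi
  · refine sum_congr rfl fun b _ => sum_congr rfl fun a _ => ?_
    rw [sum_ite_eq, if_pos (mem_range.2 (by omega))]
  · refine sum_eq_zero fun b _ => sum_eq_zero fun a _ => ?_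
    rw [sum_ite_eq, if_neg (by rw [mem_range]; omega)]

theorem small_fib {n m : ℕ} {F : ℤ[X][X][X]} (H : DegF n m F) : ∃ A0 : ℕ, ∀ a : ℕ, A0 ≤ a →
    ∀ x y : ℤ, |y| ≤ |x| → |x| ^ (2 * n) ≤ (a : ℤ) → ev3 (a : ℤ) x y F = 0 → fib F x y = 0 := by
  obtain ⟨B, hB⟩ : ∃ B : ℤ, B = ∑ i ∈ range (m + 1), ∑ b ∈ range (n + 1),
    ∑ a ∈ range (n + 1 - b), |cf3 F i a b| := ⟨_, rfl⟩
  have hB0 : 0 ≤ B := by
    rw [hB]
    exact sum_nonneg fun _ _ => sum_nonneg fun _ _ => sum_nonneg fun _ _ => abs_nonneg _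
  refine ⟨((m * B) ^ 2).toNat + 2, fun a ha x y hyx hxa hev => ?_⟩
  by_contra hq
  have ha1 : (1 : ℤ) ≤ a := by omega
  obtain ⟨M, hM⟩ : ∃ M : ℤ, M = max 1 |x| := ⟨_, rfl⟩
  have hM1 : 1 ≤ M := by rw [hM]; exact le_max_left _ _
  have hMx : |x| ≤ M := by rw [hM]; exact le_max_right _ _
  have hMa : M ^ (2 * n) ≤ a := by
    rw [hM]
    rcases le_total |x| 1 with h | h
    · rw [max_eq_left h, one_pow]
      exact ha1
    · rw [max_eq_right h]
      exact hxa
  have hK : ∀ i, |(fib F x y).coeff i| ≤ B * M ^ n := by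
    intro i
    rw [fib_coeff H]
    split_ifs with hi
    · refine (abs_sum_le_sum_abs _ _).trans ?_
      have h1 : ∑ b ∈ range (n + 1), ∑ a ∈ range (n + 1 - b), |cf3 F i a b| ≤ B := by
        rw [hB]
        exact single_le_sum (f := fun i => ∑ b ∈ range (n + 1),
          ∑ a ∈ range (n + 1 - b), |cf3 F i a b|)
          (fun _ _ => sum_nonneg fun _ _ => sum_nonneg fun _ _ => abs_nonneg _)
          (mem_range.2 (by omega))
      refine le_trans ?_ (mul_le_mul_of_nonneg_right h1 (by positivity))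
      rw [sum_mul]
      refine sum_le_sum fun b hb => ?_
      refine (abs_sum_le_sum_abs _ _).trans ?_
      rw [sum_mul]
      refine sum_le_sum fun c hc => ?_
      rw [mem_range] at hb hc
      rw [abs_mul, abs_mul, abs_pow, abs_pow]
      refine mul_le_mul_of_nonneg_left ?_ (abs_nonneg _)
      calc |x| ^ c * |y| ^ b ≤ M ^ c * M ^ b :=
            mul_le_mul (pow_le_pow_left₀ (abs_nonneg _) hMx c)
              (pow_le_pow_left₀ (abs_nonneg _) (hyx.trans hMx) b) (by positivity) (by positivity)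
        _ = M ^ (c + b) := by rw [pow_add]
        _ ≤ M ^ n := pow_le_pow_right₀ hM1 (by omega)
    · rw [abs_zero]
      positivity
  have h1 : (a : ℤ) ≤ (fib F x y).natDegree * (B * M ^ n) :=
    root_le ha1 hK hq (by rw [fib_eval H]; exact hev)
  have h2 : (a : ℤ) ≤ m * B * M ^ n := by
    refine h1.trans ?_
    have h3 : (((fib F x y).natDegree : ℕ) : ℤ) ≤ m := by exact_mod_cast fib_deg H x y
    calc ((fib F x y).natDegree : ℤ) * (B * M ^ n) ≤ m * (B * M ^ n) :=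
          mul_le_mul_of_nonneg_right h3 (by positivity)
      _ = _ := by ring
  have h3 : (a : ℤ) * a ≤ (m * B) ^ 2 * a := by
    calc (a : ℤ) * a ≤ (m * B * M ^ n) * (m * B * M ^ n) :=
          mul_le_mul h2 h2 (by positivity) (by positivity)
      _ = (m * B) ^ 2 * M ^ (2 * n) := by ring
      _ ≤ (m * B) ^ 2 * a := mul_le_mul_of_nonneg_left hMa (by positivity)
  have h4 : (a : ℤ) ≤ (m * B) ^ 2 := le_of_mul_le_mul_right h3 (by omega)
  have h5 := Int.self_le_toNat ((m * B) ^ 2)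
  omega

end Pool.Agent.H4.SX
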