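import Pool.Agent.H4.SX.WDH
import Pool.Agent.H4.SX.SMF

/-! # [H4 SX HLF] All points with `|y| ≤ |x|` of the members with a large parameter

`C0` from `hL : LargeAll F` (`a ≥ C0` implies `|x|, |y| ≤ a^C0`). `Q = 2 n²`. Let `a ≥ A0`.
(1) `|x|^(2n) ≤ a`: `small_fib` gives `fib F x y = 0`, so `ev3 C0 x y F = 0` (`fib_eval`), and `hL` at `a = C0` gives
`|x|, |y| ≤ C0^C0`: `R_0 = R'_0 = ∏_(|z| ≤ C0^C0) (X - C (C z))` (`∏ z ∈ Icc (-B) B`, in `ℤ[t][x]`) vanishes.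
(2) `|x|^(2n) ≥ a`, i.e. `a^n ≤ |x|^Q`, and `|x|^Q ≤ a^(C0 Q)`: `j = Nat.log a (|x|^Q)` satisfies
`n ≤ j ≤ C0 Q`, `a^j ≤ |x|^Q ≤ a^(j+1)` (cf. `exists_class` in `H98/TE/MID.lean`): `window_half` for
`j ∈ Icc n (C0 Q)`. `R = R_0 ∏_j R_j`, `A0` = the sum of all constants. -/

namespace Pool.Agent.H4.SX

open Finset Polynomial Pool.Agent.H37.TE Pool.Agent.H98.TE Pool.Agent.H4.TP

private theorem ee_mul_l {a x : ℤ} {R S : ℤ[X][X]} (h : evalEval a x R = 0) :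
    evalEval a x (R * S) = 0 := by
  rw [evalEval_mul, h, zero_mul]

private theorem ee_mul_r {a x : ℤ} {R S : ℤ[X][X]} (h : evalEval a x S = 0) :
    evalEval a x (R * S) = 0 := by
  rw [evalEval_mul, h, mul_zero]

private theorem ee_prod {ι : Type} {a x : ℤ} (s : Finset ι) (f : ι → ℤ[X][X]) {i : ι} (hi : i ∈ s)
    (h : evalEval a x (f i) = 0) : evalEval a x (∏ j ∈ s, f j) = 0 := by
  classical
  rw [← Finset.mul_prod_erase s f hi]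
  exact ee_mul_l h

/-- the polynomial with the zeros `|x| ≤ B` -/
private noncomputable def smR (B : ℤ) : ℤ[X][X] := ∏ z ∈ Finset.Icc (-B) B, (X - C (C z))

private theorem smR_ne (B : ℤ) : smR B ≠ 0 := by
  unfold smR
  rw [Finset.prod_ne_zero_iff]
  intro z _
  exact X_sub_C_ne_zero _

private theorem smR_ev {B a x : ℤ} (h : |x| ≤ B) : evalEval a x (smR B) = 0 := by
  unfold smR
  refine ee_prod (Finset.Icc (-B) B) (fun z => (X - C (C z) : ℤ[X][X])) (i := x) ?_ ?_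
  · rw [Finset.mem_Icc]
    exact abs_le.1 h
  · unfold evalEval
    simp

theorem half_all {n m : ℕ} {F : ℤ[X][X][X]} (hn : 3 ≤ n) (h : HypG n m F) (hR : HR n m F)
    (hL : LargeAll F) :
    ∃ (R R' : ℤ[X][X]) (A0 : ℕ), R ≠ 0 ∧ R' ≠ 0 ∧ ∀ a : ℕ, A0 ≤ a → ∀ x y : ℤ,
      ev3 (a : ℤ) x y F = 0 → |y| ≤ |x| → evalEval (a : ℤ) x R = 0 ∧ evalEval (a : ℤ) y R' = 0 := by
  classical
  obtain ⟨C0, hC0⟩ := hL
  obtain ⟨A1, hA1⟩ := small_fib h.H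
  obtain ⟨Q, hQ⟩ : ∃ Q, Q = 2 * n * n := ⟨_, rfl⟩
  have hQ1 : 1 ≤ Q := by
    rw [hQ]
    nlinarith
  have hwin : ∀ j : ℕ, ∃ (R R' : ℤ[X][X]) (A0 : ℕ), n ≤ j → (R ≠ 0 ∧ R' ≠ 0 ∧ ∀ a : ℕ, A0 ≤ a →
      ∀ x y : ℤ, ev3 (a : ℤ) x y F = 0 → |y| ≤ |x| → (a : ℤ) ^ j ≤ |x| ^ Q →
        |x| ^ Q ≤ (a : ℤ) ^ (j + 1) → evalEval (a : ℤ) x R = 0 ∧ evalEval (a : ℤ) y R' = 0) := by
    intro j
    by_cases hj : n ≤ j
    · obtain ⟨R, R', A0, hh⟩ := window_half hn h hR Q j hQ1 hj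
      exact ⟨R, R', A0, fun _ => hh⟩
    · exact ⟨0, 0, 0, fun h' => absurd h' hj⟩
  choose R R' A hh using hwin
  obtain ⟨J, hJ⟩ : ∃ J : Finset ℕ, J = Finset.Icc n (C0 * Q) := ⟨_, rfl⟩
  have hJn : ∀ j ∈ J, n ≤ j := by
    intro j hj
    rw [hJ, Finset.mem_Icc] at hj
    exact hj.1
  refine ⟨smR ((C0 : ℤ) ^ C0) * ∏ j ∈ J, R j, smR ((C0 : ℤ) ^ C0) * ∏ j ∈ J, R' j,
    A1 + C0 + 2 + ∑ j ∈ J, A j, ?_, ?_, fun a ha x y hF hyx => ?_⟩
  · refine mul_ne_zero (smR_ne _) ?_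
    rw [Finset.prod_ne_zero_iff]
    exact fun j hj => (hh j (hJn j hj)).1
  · refine mul_ne_zero (smR_ne _) ?_
    rw [Finset.prod_ne_zero_iff]
    exact fun j hj => (hh j (hJn j hj)).2.1
  by_cases hsm : |x| ^ (2 * n) ≤ (a : ℤ)
  · have h1 := hA1 a (by omega) x y hyx hsm hF
    have h2 : ev3 (C0 : ℤ) x y F = 0 := by
      rw [← fib_eval h.H, h1, eval_zero]
    obtain ⟨h3, h4⟩ := hC0 C0 le_rfl x y h2
    exact ⟨ee_mul_l (smR_ev h3), ee_mul_l (smR_ev h4)⟩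
  · push Not at hsm
    have ha1 : 1 < a := by omega
    have haz : (1 : ℤ) < a := by exact_mod_cast ha1
    have hxa : (a : ℤ) < ((x.natAbs : ℤ)) ^ (2 * n) := by
      rw [Int.natCast_natAbs]
      exact hsm
    have hxa' : a < x.natAbs ^ (2 * n) := by exact_mod_cast hxa
    obtain ⟨Y, hY⟩ : ∃ Y, Y = x.natAbs ^ Q := ⟨_, rfl⟩
    have hYz : |x| ^ Q = (Y : ℤ) := by
      rw [hY, ← Int.natCast_natAbs]
      push_cast
      rfl
    have hYn : a ^ n ≤ Y := by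
      rw [hY, hQ, pow_mul]
      exact Nat.pow_le_pow_left hxa'.le n
    have hY0 : Y ≠ 0 := by
      have : 0 < a ^ n := by positivity
      omega
    obtain ⟨hx1, -⟩ := hC0 a (by omega) x y hF
    have hx2 : x.natAbs ≤ a ^ C0 := by
      have : (x.natAbs : ℤ) ≤ (a : ℤ) ^ C0 := by
        rw [Int.natCast_natAbs]
        exact hx1
      exact_mod_cast this
    have hYC : Y ≤ a ^ (C0 * Q) := by
      rw [hY, pow_mul]
      exact Nat.pow_le_pow_left hx2 Q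
    obtain ⟨j, hj⟩ : ∃ j, j = Nat.log a Y := ⟨_, rfl⟩
    have hj1 : a ^ j ≤ Y := by
      rw [hj]
      exact Nat.pow_log_le_self a hY0
    have hj2 : Y < a ^ (j + 1) := by
      rw [hj]
      exact Nat.lt_pow_succ_log_self ha1 Y
    have hjn : n ≤ j := by
      have h5 : a ^ n < a ^ (j + 1) := lt_of_le_of_lt hYn hj2
      have h6 := (Nat.pow_lt_pow_iff_right ha1).1 h5
      omega
    have hjC : j ≤ C0 * Q := (Nat.pow_le_pow_iff_right ha1).1 (hj1.trans hYC)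
    have hjJ : j ∈ J := by
      rw [hJ, Finset.mem_Icc]
      exact ⟨hjn, hjC⟩
    have hAj : A j ≤ a := by
      have h5 : A j ≤ ∑ j ∈ J, A j := Finset.single_le_sum (fun _ _ => Nat.zero_le _) hjJ
      omega
    obtain ⟨-, -, h7⟩ := hh j hjn
    obtain ⟨h8, h9⟩ := h7 a hAj x y hF hyx (by rw [hYz]; exact_mod_cast hj1)
      (by rw [hYz]; exact_mod_cast hj2.le)
    exact ⟨ee_mul_r (ee_prod J R hjJ h8), ee_mul_r (ee_prod J R' hjJ h9)⟩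

end Pool.Agent.H4.SX
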