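import Pool.Agent.H4.SX.Defs
import Pool.Agent.H4.TP.LIN
import Pool.Agent.H4.TE.ADM

/-! # [H4 SX MOB] The degree of the real roots of the top form is invariant under linear substitutions

`mob_deg`: `θ' = (α + β θ)/(γ + δ θ)`, so `θ (δ θ' - β) = α - γ θ'` and `δ θ' - β ≠ 0` (it times `γ + δ θ` is
`δ (α + β θ) - β (γ + δ θ) = α δ - β γ = 1`). Hence `θ ∈ ℚ⟮θ'⟯` (`IntermediateField`: `div_mem`, `intCast_mem`,
`mem_adjoin_simple_self`), `ℚ⟮θ⟯ ≤ ℚ⟮θ'⟯` (`IntermediateField.adjoin_simple_le_iff`), `θ` is integral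
(`IntermediateField.adjoin` finite dimensional, `IsIntegral.of_finite` in the subfield and `algebraMap`, or `isAlgebraic` of a
quotient: `IsAlgebraic.mul/.inv`), and `(minpoly ℚ θ).natDegree = finrank ℚ ℚ⟮θ⟯ ≤ finrank ℚ ℚ⟮θ'⟯ = (minpoly ℚ θ').natDegree`
(`IntermediateField.adjoin.finrank`, `IntermediateField.finrank_le_of_le_right` or `LinearMap.finrank_le_finrank_of_injective` of the
inclusion; finite dimension of `ℚ⟮θ'⟯`: `IntermediateField.adjoin.finiteDimensional hθ`).

`hr_lin`: let `g = homogeneousComponent n (F m)`, `G j = lin α β γ δ (F j)`. A real root `θ` of `topm n m (F3 m G)`: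
`0 = aeval ![1, θ] (homogeneousComponent n (G m))` (`top_cf`, `topm`, `cf3`, `coeff_f3` and the coefficient of `t^m`, as in
`ad_topq` in `Pool/Agent/H4/TE/ADM.lean`) `= aeval ![α + β θ, γ + δ θ] g` (`lin_homog`, `lin_eval`). `g` is a form of degree `n`.
* `γ + δ θ = 0`: `δ ≠ 0` or `γ = 0 = δ` (excluded by `hdet`), so `θ` is rational, `(minpoly ℚ θ).natDegree = 1`
  (`minpoly.eq_X_sub_C`, `natDegree_X_sub_C`), `2 < n`.
* otherwise `θ' = (α + β θ)/(γ + δ θ)`; `aeval ![θ', 1] g * (γ + δ θ)^n = aeval ![α + β θ, γ + δ θ] g = 0`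
  (`top_cf`: term by term), so `aeval ![θ', 1] g = 0`; `θ'` is integral over `ℚ`: it is a root of the polynomial
  `∑_l coeff (n-l, l) X^(n-l) ≠ 0` (`hg`; `top_cf`: all these coefficients `0` would give `g = 0`); `hR θ'` and `mob_deg`. -/

namespace Pool.Agent.H4.SX

open Finset Polynomial Pool.Agent.H37.TE Pool.Agent.H98.TE Pool.Agent.H4.TE Pool.Agent.H4.TP

variable {α β γ δ : ℤ}

theorem mob_deg (hdet : α * δ - β * γ = 1) {θ θ' : ℝ} (hθ : IsIntegral ℚ θ')
    (h0 : (γ : ℝ) + δ * θ ≠ 0) (h : θ' * (γ + δ * θ) = α + β * θ) :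
    (minpoly ℚ θ).natDegree ≤ (minpoly ℚ θ').natDegree := by
  have hd : (α : ℝ) * δ - β * γ = 1 := by exact_mod_cast hdet
  have h1 : ((δ : ℝ) * θ' - β) * (γ + δ * θ) = 1 := by
    linear_combination (δ : ℝ) * h + hd
  have h2 : (δ : ℝ) * θ' - β ≠ 0 := left_ne_zero_of_mul_eq_one h1
  have h3 : θ = (α - γ * θ') / (δ * θ' - β) := by
    rw [eq_div_iff h2]
    linear_combination h
  have hmem' : θ' ∈ IntermediateField.adjoin ℚ {θ'} :=
    IntermediateField.mem_adjoin_simple_self ℚ θ'
  have hmem : θ ∈ IntermediateField.adjoin ℚ {θ'} := by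
    rw [h3]
    exact div_mem (sub_mem (intCast_mem _ _) (mul_mem (intCast_mem _ _) hmem'))
      (sub_mem (mul_mem (intCast_mem _ _) hmem') (intCast_mem _ _))
  have hfin : FiniteDimensional ℚ (IntermediateField.adjoin ℚ {θ'}) :=
    IntermediateField.adjoin.finiteDimensional hθ
  have h4 : minpoly ℚ (⟨θ, hmem⟩ : IntermediateField.adjoin ℚ {θ'}) = minpoly ℚ θ :=
    IntermediateField.minpoly_eq (⟨θ, hmem⟩ : IntermediateField.adjoin ℚ {θ'})
  rw [← h4, ← IntermediateField.adjoin.finrank hθ]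
  exact minpoly.natDegree_le _

/-- the value of a form at `(u, v)` -/
private theorem mob_val (n : ℕ) (P : MvPolynomial (Fin 2) ℤ) (u v : ℝ) :
    MvPolynomial.aeval ![u, v] (MvPolynomial.homogeneousComponent n P) = ∑ l ∈ range (n + 1),
      ((P.coeff (Finsupp.single 0 (n - l) + Finsupp.single 1 l) : ℤ) : ℝ) * u ^ (n - l) * v ^ l := by
  rw [top_cf, map_sum]
  refine sum_congr rfl fun l _ => ?_
  rw [map_mul, map_mul, map_pow, map_pow, MvPolynomial.aeval_X, MvPolynomial.aeval_X,
    MvPolynomial.aeval_C]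
  rfl

private theorem mob_hom (n : ℕ) (P : MvPolynomial (Fin 2) ℤ) (u v s : ℝ) :
    MvPolynomial.aeval ![u * s, v * s] (MvPolynomial.homogeneousComponent n P) =
      MvPolynomial.aeval ![u, v] (MvPolynomial.homogeneousComponent n P) * s ^ n := by
  rw [mob_val, mob_val, sum_mul]
  refine sum_congr rfl fun l hl => ?_
  rw [mem_range] at hl
  have h1 : s ^ n = s ^ (n - l) * s ^ l := by
    rw [← pow_add]
    congr 1
    omega
  rw [h1, mul_pow, mul_pow]
  ring

theorem hr_lin {n m : ℕ} (hn : 3 ≤ n) (F : ℕ → MvPolynomial (Fin 2) ℤ) (hdet : α * δ - β * γ = 1)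
    (hg : MvPolynomial.homogeneousComponent n (F m) ≠ 0)
    (hR : ∀ θ : ℝ, MvPolynomial.aeval ![θ, 1] (MvPolynomial.homogeneousComponent n (F m)) = 0 →
      2 * (minpoly ℚ θ).natDegree < n) :
    HR n m (F3 m (fun j => lin α β γ δ (F j))) := by
  intro θ hθ
  have e1 : (topm n m (F3 m (fun j => lin α β γ δ (F j)))).eval θ =
      MvPolynomial.aeval ![1, θ] (MvPolynomial.homogeneousComponent n (lin α β γ δ (F m))) := by
    rw [mob_val]
    unfold topm
    rw [eval_finsetSum]
    refine sum_congr rfl fun l _ => ?_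
    rw [eval_mul, eval_C, eval_pow, eval_X, one_pow, mul_one, cf3, coeff_f3, finsetSum_coeff]
    have h1 : ∑ j ∈ range (m + 1), (C ((lin α β γ δ (F j)).coeff
        (Finsupp.single 0 (n - l) + Finsupp.single 1 l)) * X ^ j : ℤ[X]).coeff m =
        (lin α β γ δ (F m)).coeff (Finsupp.single 0 (n - l) + Finsupp.single 1 l) := by
      rw [sum_eq_single m]
      · rw [coeff_C_mul, coeff_X_pow, if_pos rfl, mul_one]
      · intro j _ hj
        rw [coeff_C_mul, coeff_X_pow, if_neg (Ne.symm hj), mul_zero]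
      · intro h
        exact absurd (mem_range.2 (Nat.lt_succ_self m)) h
    rw [h1]
  have e2 : MvPolynomial.aeval ![1, θ] (MvPolynomial.homogeneousComponent n
      (lin α β γ δ (F m))) = MvPolynomial.aeval ![(α : ℝ) + β * θ, γ + δ * θ]
        (MvPolynomial.homogeneousComponent n (F m)) := by
    rw [lin_homog]
    unfold lin
    rw [← AlgHom.comp_apply]
    congr 1
    apply MvPolynomial.algHom_ext
    intro i
    fin_cases i <;> simp
  rw [e1, e2] at hθ
  by_cases h0 : (γ : ℝ) + δ * θ = 0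
  · have hδ : δ ≠ 0 := by
      rintro rfl
      have h1 : (γ : ℝ) = 0 := by simpa using h0
      have h2 : γ = 0 := by exact_mod_cast h1
      rw [h2] at hdet
      simp at hdet
    have hδ' : (δ : ℝ) ≠ 0 := by exact_mod_cast hδ
    have h1 : θ = ((-(γ : ℚ) / δ : ℚ) : ℝ) := by
      push_cast
      rw [eq_div_iff hδ']
      linear_combination h0
    have h2 : minpoly ℚ θ = X - C (-(γ : ℚ) / δ) := by
      rw [h1]
      exact minpoly.eq_X_sub_C ℝ (-(γ : ℚ) / δ)
    rw [h2, natDegree_X_sub_C]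
    omega
  · obtain ⟨θ', hθ'⟩ : ∃ θ' : ℝ, θ' = (α + β * θ) / (γ + δ * θ) := ⟨_, rfl⟩
    have h1 : θ' * (γ + δ * θ) = α + β * θ := by
      rw [hθ', div_mul_cancel₀ _ h0]
    have h2 : MvPolynomial.aeval ![θ', 1] (MvPolynomial.homogeneousComponent n (F m)) = 0 := by
      have h3 := mob_hom n (F m) θ' 1 (γ + δ * θ)
      rw [h1, one_mul, hθ] at h3
      rcases mul_eq_zero.1 h3.symm with h4 | h4
      · exact h4
      · exact absurd (pow_eq_zero_iff (by omega) |>.1 h4) h0
    have h5 : IsIntegral ℚ θ' := by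
      rw [← isAlgebraic_iff_isIntegral]
      refine ⟨∑ l ∈ range (n + 1), C ((((F m).coeff (Finsupp.single 0 (n - l) +
        Finsupp.single 1 l) : ℤ)) : ℚ) * X ^ (n - l), ?_, ?_⟩
      · intro hz
        apply hg
        rw [top_cf]
        refine sum_eq_zero fun l hl => ?_
        rw [mem_range] at hl
        have h6 := congrArg (fun q : ℚ[X] => q.coeff (n - l)) hz
        simp only [finsetSum_coeff, coeff_C_mul, coeff_X_pow, coeff_zero] at h6
        rw [sum_eq_single l] at h6
        · rw [if_pos rfl, mul_one] at h6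
          have h7 : (F m).coeff (Finsupp.single 0 (n - l) + Finsupp.single 1 l) = 0 := by
            exact_mod_cast h6
          rw [h7, map_zero, zero_mul, zero_mul]
        · intro k hk hkl
          rw [mem_range] at hk
          rw [if_neg (by omega), mul_zero]
        · intro h
          exact absurd (mem_range.2 hl) h
      · rw [mob_val] at h2
        rw [map_sum, ← h2]
        refine sum_congr rfl fun l _ => ?_
        rw [map_mul, map_pow, aeval_X, aeval_C, one_pow, mul_one]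
        simp
    exact lt_of_le_of_lt (Nat.mul_le_mul_left 2 (mob_deg hdet h5 h0 h1)) (hR θ' h2)

end Pool.Agent.H4.SX
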