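import Pool.Agent.H4.SX.Defs
import Pool.Agent.H4.TP.FDefs
import Pool.Agent.H4.TE.BRG

/-! # [H4 SX NDV] The polynomial `R(t, x)` as an element of `ℚ[t][x, y]`

`gR_eval`: `map_sum`, `map_mul`, `eval_finset_sum`; `evalEval a x R = (R.eval (C x)).eval a = ∑_i (R.coeff i).eval a * x^i`
(`eval_eq_sum_range`, `eval_finset_sum`), `eval_intCast_map`/`eval_map`, `eval₂_at_apply`.
`gR_ne`: for `R.coeff i ≠ 0` (`R ≠ 0`, `i = R.natDegree`) the coefficient of `single 0 i` is not `0`
(`Polynomial.map_eq_zero_iff` for the injective `Int.castRingHom ℚ`).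
`gR_ndvd`: if `C c * gR R = famP ℚ m F * H`: the left side is not `0`, so neither factor is; `MvPolynomial.degreeOf 1` of the
left side is `0` (no `X 1` occurs: `degreeOf_mul_le`, `degreeOf_sum_le`, `degreeOf_C_mul_le`, `degreeOf_X_pow`..), that of the
right side is the sum of the degrees (`MvPolynomial.degreeOf_mul_eq`), so `degreeOf 1 (famP ℚ m F) = 0`; but the
coefficient of `y^n` (`single 1 n`) of `famP ℚ m F` is `∑_(j ≤ m) t^j (coefficient (0, n) of F_j) ≠ 0`, since its coefficient of `t^m` is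
`MvPolynomial.eval ![0, 1]` of the homogeneous component of `F m` (`h1`; `top_cf`, see `hyp_of` in `Pool/Agent/H4/TP/HYP.lean`, `e1`),
and `n ≥ 1` (`MvPolynomial.degreeOf_lt_iff` / `MvPolynomial.monomial_le_degreeOf`). -/

namespace Pool.Agent.H4.SX

open Finset Polynomial Pool.Agent.H37.TE Pool.Agent.H98.TE Pool.Agent.H4.TE Pool.Agent.H4.TP

/-- `R(t, x)` as a polynomial in `x, y` over `ℚ[t]` -/
noncomputable def gR (R : ℤ[X][X]) : MvPolynomial (Fin 2) ℚ[X] :=
  ∑ i ∈ range (R.natDegree + 1),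
    MvPolynomial.C ((R.coeff i).map (Int.castRingHom ℚ)) * MvPolynomial.X 0 ^ i

theorem gR_eval (R : ℤ[X][X]) (a x : ℤ) (y : ℚ[X]) :
    (MvPolynomial.eval ![(C (x : ℚ) : ℚ[X]), y] (gR R)).eval (a : ℚ) =
      ((evalEval a x R : ℤ) : ℚ) := by
  unfold gR
  rw [map_sum, eval_finsetSum]
  have h1 : evalEval a x R = ∑ i ∈ range (R.natDegree + 1), (R.coeff i).eval a * x ^ i := by
    show (R.eval (C x)).eval a = _
    rw [eval_eq_sum_range (p := R), eval_finsetSum]
    refine sum_congr rfl fun i _ => ?_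
    rw [eval_mul, eval_pow, eval_C]
  rw [h1]
  push_cast
  refine sum_congr rfl fun i _ => ?_
  rw [map_mul, map_pow, MvPolynomial.eval_C, MvPolynomial.eval_X, eval_mul, eval_pow]
  have h2 : eval (a : ℚ) ((R.coeff i).map (Int.castRingHom ℚ)) = (((R.coeff i).eval a : ℤ) : ℚ) := by
    rw [eval_intCast_map]
    rfl
  rw [h2]
  simp

private theorem gR_cf (R : ℤ[X][X]) (i : ℕ) (hi : i ≤ R.natDegree) :
    (gR R).coeff (Finsupp.single 0 i) = (R.coeff i).map (Int.castRingHom ℚ) := by
  classical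
  unfold gR
  rw [MvPolynomial.coeff_sum, sum_eq_single i]
  · rw [MvPolynomial.coeff_C_mul, MvPolynomial.coeff_X_pow, if_pos rfl, mul_one]
  · intro j _ hj
    rw [MvPolynomial.coeff_C_mul, MvPolynomial.coeff_X_pow, if_neg, mul_zero]
    intro h
    apply hj
    exact Finsupp.single_injective 0 h
  · intro h
    exact absurd (mem_range.2 (Nat.lt_succ_of_le hi)) h

private theorem gR_ne {R : ℤ[X][X]} (hR : R ≠ 0) : gR R ≠ 0 := by
  intro h0
  have h1 := gR_cf R R.natDegree le_rfl
  rw [h0, MvPolynomial.coeff_zero] at h1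
  have h2 := (Polynomial.map_eq_zero_iff (RingHom.injective_int (Int.castRingHom ℚ))).1 h1.symm
  rw [coeff_natDegree, leadingCoeff_eq_zero] at h2
  exact hR h2

private theorem gR_dg (R : ℤ[X][X]) (c : ℚ[X]) :
    MvPolynomial.degreeOf 1 (MvPolynomial.C c * gR R) = 0 := by
  classical
  rw [← Nat.le_zero, MvPolynomial.degreeOf_le_iff]
  intro e he
  rw [MvPolynomial.mem_support_iff, MvPolynomial.coeff_C_mul] at he
  have h1 : (gR R).coeff e ≠ 0 := right_ne_zero_of_mul he
  unfold gR at h1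
  rw [MvPolynomial.coeff_sum] at h1
  obtain ⟨i, _, hi⟩ := exists_ne_zero_of_sum_ne_zero h1
  rw [MvPolynomial.coeff_C_mul, MvPolynomial.coeff_X_pow] at hi
  split_ifs at hi with h
  · rw [← h]
    simp
  · simp at hi

theorem gR_ndvd {n m : ℕ} (hn : 1 ≤ n) {F : ℕ → MvPolynomial (Fin 2) ℤ}
    (h1 : MvPolynomial.eval ![0, 1] (MvPolynomial.homogeneousComponent n (F m)) ≠ 0)
    {R : ℤ[X][X]} (hR : R ≠ 0) {c : ℚ[X]} (hc : c ≠ 0) :
    ¬ famP ℚ m F ∣ MvPolynomial.C c * gR R := by
  classical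
  rintro ⟨Q, hQ⟩
  have hL : MvPolynomial.C c * gR R ≠ 0 :=
    mul_ne_zero (by rwa [Ne, MvPolynomial.C_eq_zero]) (gR_ne hR)
  have hd := gR_dg R c
  rw [hQ] at hL hd
  rw [MvPolynomial.degreeOf_mul_eq (left_ne_zero_of_mul hL) (right_ne_zero_of_mul hL)] at hd
  have e1 : (F m).coeff (Finsupp.single 1 n) ≠ 0 := by
    rw [top_cf, map_sum, sum_eq_single n] at h1
    · simpa using h1
    · intro l hl hln
      rw [mem_range] at hl
      rw [map_mul, map_mul, map_pow, MvPolynomial.eval_X]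
      have : n - l ≠ 0 := by omega
      simp [this]
    · intro h
      exact absurd (mem_range.2 (Nat.lt_succ_self n)) h
  have e2 : (famP ℚ m F).coeff (Finsupp.single 1 n) ≠ 0 := by
    intro h
    unfold famP at h
    rw [MvPolynomial.coeff_sum] at h
    have h2 := congrArg (fun r : ℚ[X] => r.coeff m) h
    simp only [finsetSum_coeff, coeff_zero] at h2
    rw [sum_eq_single m] at h2
    · rw [MvPolynomial.coeff_C_mul, MvPolynomial.coeff_map, coeff_X_pow_mul', if_pos le_rfl,
        Nat.sub_self] at h2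
      rw [eq_intCast, ← C_eq_intCast, coeff_C_zero] at h2
      exact e1 (by exact_mod_cast h2)
    · intro j hj hjm
      rw [mem_range] at hj
      rw [MvPolynomial.coeff_C_mul, MvPolynomial.coeff_map, coeff_X_pow_mul',
        if_pos (by omega), eq_intCast, ← C_eq_intCast, coeff_C_ne_zero (by omega)]
    · intro h
      exact absurd (mem_range.2 (Nat.lt_succ_self m)) h
  have e3 := MvPolynomial.monomial_le_degreeOf 1 (MvPolynomial.mem_support_iff.2 e2)
  rw [Finsupp.single_eq_same] at e3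
  omega

end Pool.Agent.H4.SX
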