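import Pool.Agent.H4.SX.ALL
import Pool.Agent.H4.SX.COR
import Pool.Agent.H4.SX.MOB
import Pool.Agent.H4.SX.NDV
import Pool.Agent.H4.TP.HYP
import Pool.Agent.H4.TP.COV

/-! # [H4 SX MVX] THEOREM X for families of polynomials in two variables

As `main` in `Pool/Agent/H4/TQ/Main.lean`: `good_lin` gives `α β γ δ` of determinant `1` such that `G j = lin α β γ δ (F j)`
satisfies the hypotheses of `hyp_of` (see there: `lin_tot`, `famP_lin`, `dec_lin`, `sqf_lin`, `topP_lin`). `hr_lin`: `HR`. `surf` for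
`F3 m G`: `R, R'`; `fibre_bd`: `K'`. `G := lin δ (-β) (-γ) α (gR R)`.
* divisibility: if `famP ℚ m F ∣ C c * lin δ (-β) (-γ) α (gR R)`, apply `lin α β γ δ` (`map_dvd`, `famP_lin`, `lin_inv` with
  `δ α - (-β)(-γ) = 1`, `neg_neg`, `lin (C c) = C c`: `MvPolynomial.aeval_C`): contradiction to `gR_ndvd`.
* values: for an integer zero `(x, y)` of `F_a` let `x' = δ x - β y`, `y' = -γ x + α y`: `ev3 a x' y' (F3 m G) = 0` (`ev3_f3`,
  `hev2` of `main`), `evalEval a x' R = 0`, and `eval ![C x, C y] (lin δ (-β) (-γ) α (gR R)) = eval ![C x', C y'] (gR R)` (`lin_eval` for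
  `aeval` over `ℚ[X]`, `MvPolynomial.coe_aeval_eq_eval`/`aeval_eq_eval`), `gR_eval`.
* bound: `{p | F_a(p) = 0}` is the image of `{p' | ev3 a p'.1 p'.2 (F3 m G) = 0}` under `(x', y') ↦ (α x' + β y', γ x' + δ y')`
  (`Set.Finite.image`, `Set.ncard_image_le`), `|x| ≤ (|α| + |β|) |a|^K' ≤ |a|^(K' + 1)` for `|a| ≥ |α| + |β| + |γ| + |δ|`.
  `K = K' + 1 + (|α| + |β| + |γ| + |δ|).toNat`. -/

namespace Pool.Agent.H4.SX

open Finset Polynomial Pool.Agent.H37.TE Pool.Agent.H98.TE Pool.Agent.H4.TE Pool.Agent.H4.TP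

theorem main_x (n m : ℕ) (hn : 3 ≤ n) (hm : 1 ≤ m) (F : ℕ → MvPolynomial (Fin 2) ℤ)
    (hF : ∀ j ≤ m, (F j).totalDegree ≤ n) (hirr : ¬ Dec (famP ℚ m F))
    (hsq : Squarefree (MvPolynomial.map (Int.castRingHom ℚ)
      (MvPolynomial.homogeneousComponent n (F m))))
    (htop : 2 ≤ m → Dec (topP ℂ n m F) → Dec (topP ℚ n m F))
    (hR : ∀ θ : ℝ, MvPolynomial.aeval ![θ, 1] (MvPolynomial.homogeneousComponent n (F m)) = 0 →
      2 * (minpoly ℚ θ).natDegree < n) :
    ∃ (G : MvPolynomial (Fin 2) ℚ[X]) (K : ℕ),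
      (∀ c : ℚ[X], c ≠ 0 → ¬ famP ℚ m F ∣ MvPolynomial.C c * G) ∧
      (∀ a x y : ℤ, ∑ j ∈ range (m + 1), a ^ j * MvPolynomial.eval ![x, y] (F j) = 0 →
        (MvPolynomial.eval ![(C (x : ℚ) : ℚ[X]), C (y : ℚ)] G).eval (a : ℚ) = 0) ∧
      ∀ a : ℤ, (K : ℤ) ≤ |a| →
        {p : ℤ × ℤ | ∑ j ∈ range (m + 1), a ^ j * MvPolynomial.eval ![p.1, p.2] (F j) = 0}.Finite ∧
        {p : ℤ × ℤ | ∑ j ∈ range (m + 1),
          a ^ j * MvPolynomial.eval ![p.1, p.2] (F j) = 0}.ncard ≤ K ∧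
        ∀ x y : ℤ, ∑ j ∈ range (m + 1), a ^ j * MvPolynomial.eval ![x, y] (F j) = 0 →
          |x| ≤ |a| ^ K ∧ |y| ≤ |a| ^ K := by
  have hQ : MvPolynomial.homogeneousComponent n (F m) ≠ 0 := by
    intro h0
    rw [h0, map_zero] at hsq
    exact hsq.ne_zero rfl
  obtain ⟨α, β, γ, δ, hdet, hc0, hc1⟩ := good_lin hQ
  have hdet' : δ * α - -β * -γ = 1 := by linear_combination hdet
  obtain ⟨G, hG⟩ : ∃ G : ℕ → MvPolynomial (Fin 2) ℤ, G = fun j => lin α β γ δ (F j) := ⟨_, rfl⟩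
  have hGj : ∀ j, G j = lin α β γ δ (F j) := fun j => by rw [hG]
  have hev : ∀ (x y : ℤ) (p : MvPolynomial (Fin 2) ℤ), MvPolynomial.eval ![x, y]
      (lin α β γ δ p) = MvPolynomial.eval ![α * x + β * y, γ * x + δ * y] p := by
    intro x y p
    have h1 := lin_eval (α := α) (β := β) (γ := γ) (δ := δ) x y p
    rw [MvPolynomial.aeval_eq_eval, MvPolynomial.aeval_eq_eval] at h1
    simpa using h1
  have hG1 : MvPolynomial.eval ![0, 1] (MvPolynomial.homogeneousComponent n (G m)) ≠ 0 := by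
    rw [hGj, lin_homog, hev]
    simpa using hc1
  obtain ⟨a1, a3⟩ := hyp_of (n := n) (m := m) (F := G) (by omega) hm
    (fun j hj => by rw [hGj, lin_tot hdet]; exact hF j hj)
    (by rw [hG, famP_lin, dec_lin hdet]; exact hirr)
    (by rw [hGj, lin_homog, lin_map]; exact sqf_lin hdet hsq)
    (by rw [hG, topP_lin, topP_lin, dec_lin hdet, dec_lin hdet]; exact htop)
    (by
      rw [hGj, lin_homog, hev]
      simpa using hc0) hG1
  have hHR : HR n m (F3 m G) := by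
    rw [hG]
    exact hr_lin hn F hdet hQ hR
  obtain ⟨R, R', hRne, hR'ne, hz⟩ := surf hn a1 a3 hHR
  obtain ⟨K', hK'⟩ := fibre_bd hRne hR'ne hz
  have ex : ∀ x y : ℤ, α * (δ * x - β * y) + β * (-γ * x + α * y) = x := fun x y => by
    linear_combination x * hdet
  have ey : ∀ x y : ℤ, γ * (δ * x - β * y) + δ * (-γ * x + α * y) = y := fun x y => by
    linear_combination y * hdet
  have hzero : ∀ a x y : ℤ, ∑ j ∈ range (m + 1), a ^ j * MvPolynomial.eval ![x, y] (F j) = 0 →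
      ev3 a (δ * x - β * y) (-γ * x + α * y) (F3 m G) = 0 := by
    intro a x y hxy
    rw [ev3_f3, ← hxy]
    refine sum_congr rfl fun j _ => ?_
    rw [MvPolynomial.aeval_eq_eval, hGj]
    congr 1
    have h1 := hev (δ * x - β * y) (-γ * x + α * y) (F j)
    rw [ex, ey] at h1
    exact h1
  obtain ⟨s, hs⟩ : ∃ s : ℤ, s = |α| + |β| + |γ| + |δ| := ⟨_, rfl⟩
  have hs0 : 0 ≤ s := by
    rw [hs]
    positivity
  refine ⟨lin δ (-β) (-γ) α (gR R), K' + 1 + s.toNat, ?_, ?_, ?_⟩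
  · intro c hc hdvd
    have h2 := map_dvd (lin α β γ δ) hdvd
    have h3 : lin α β γ δ (MvPolynomial.C c) = (MvPolynomial.C c : MvPolynomial (Fin 2) ℚ[X]) := by
      unfold lin
      exact MvPolynomial.aeval_C _ c
    have h4 := lin_inv hdet' (gR R)
    rw [neg_neg, neg_neg] at h4
    rw [← famP_lin, map_mul, h3, h4, ← hG] at h2
    exact gR_ndvd (by omega) hG1 hRne hc h2
  · intro a x y hxy
    have h5 := (hz a _ _ (hzero a x y hxy)).1
    have h6 : MvPolynomial.eval ![(C (x : ℚ) : ℚ[X]), C (y : ℚ)] (lin δ (-β) (-γ) α (gR R)) =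
        MvPolynomial.eval ![(C ((δ * x - β * y : ℤ) : ℚ) : ℚ[X]),
          C ((-γ * x + α * y : ℤ) : ℚ)] (gR R) := by
      have h1 := lin_eval (α := δ) (β := -β) (γ := -γ) (δ := α) (C (x : ℚ) : ℚ[X]) (C (y : ℚ)) (gR R)
      rw [MvPolynomial.aeval_eq_eval, MvPolynomial.aeval_eq_eval] at h1
      rw [h1]
      congr 1
      congr 1
      simp [sub_eq_add_neg]
    rw [h6, gR_eval, h5, Int.cast_zero]
  · intro a ha
    have hsn : (s.toNat : ℤ) = s := Int.toNat_of_nonneg hs0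
    push_cast at ha
    rw [hsn] at ha
    obtain ⟨f1, f2, f3⟩ := hK' a (by linarith)
    obtain ⟨g, hg⟩ : ∃ g : ℤ × ℤ → ℤ × ℤ, g = fun q => (α * q.1 + β * q.2, γ * q.1 + δ * q.2) :=
      ⟨_, rfl⟩
    have himg : {p : ℤ × ℤ | ∑ j ∈ range (m + 1), a ^ j * MvPolynomial.eval ![p.1, p.2] (F j) = 0} ⊆
        g '' {p : ℤ × ℤ | ev3 a p.1 p.2 (F3 m G) = 0} := by
      rintro ⟨x, y⟩ hxy
      refine ⟨(δ * x - β * y, -γ * x + α * y), hzero a x y hxy, ?_⟩
      rw [hg]
      simp only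
      rw [ex, ey]
    refine ⟨(f1.image g).subset himg, ?_, fun x y hxy => ?_⟩
    · refine (Set.ncard_le_ncard himg (f1.image g)).trans ((Set.ncard_image_le f1).trans ?_)
      omega
    · obtain ⟨g1, g2⟩ := f3 _ _ (hzero a x y hxy)
      have hK0 : (0 : ℤ) ≤ K' := Int.natCast_nonneg _
      have ha1 : 1 ≤ |a| := by linarith
      have hP : (0 : ℤ) ≤ |a| ^ K' := by positivity
      have hle : |a| ^ (K' + 1) ≤ |a| ^ (K' + 1 + s.toNat) :=
        pow_le_pow_right₀ ha1 (by omega)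
      have hgen : ∀ u v : ℤ, |u| + |v| ≤ s → |u * (δ * x - β * y) + v * (-γ * x + α * y)| ≤
          |a| ^ (K' + 1 + s.toNat) := by
        intro u v huv
        refine le_trans ?_ hle
        calc |u * (δ * x - β * y) + v * (-γ * x + α * y)| ≤
            |u * (δ * x - β * y)| + |v * (-γ * x + α * y)| := abs_add_le _ _
          _ = |u| * |δ * x - β * y| + |v| * |-γ * x + α * y| := by rw [abs_mul, abs_mul]
          _ ≤ |u| * |a| ^ K' + |v| * |a| ^ K' := add_le_add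
              (mul_le_mul_of_nonneg_left g1 (abs_nonneg _))
              (mul_le_mul_of_nonneg_left g2 (abs_nonneg _))
          _ = (|u| + |v|) * |a| ^ K' := by ring
          _ ≤ |a| * |a| ^ K' := mul_le_mul_of_nonneg_right (by linarith) hP
          _ = |a| ^ (K' + 1) := by ring
      have hx := hgen α β (by
        rw [hs]
        have := abs_nonneg γ
        have := abs_nonneg δ
        linarith)
      have hy := hgen γ δ (by
        rw [hs]
        have := abs_nonneg α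
        have := abs_nonneg β
        linarith)
      rw [ex] at hx
      rw [ey] at hy
      exact ⟨hx, hy⟩

end Pool.Agent.H4.SX
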