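import Pool.Agent.H4.SX.Defs

/-! # [H4 SX PKE] Values of `PK`

Copies of `PF_zero`, `PF_eval` (`Pool/Agent/H98/TE/FAM.lean`, 60 lines, complete proofs there), with
`u = 1/t` instead of `α, w`. `PK_zero`: only `j = m` and `a = n - b` survive. `PK_eval`: term by term
`(1/t)^(m-j) (1/x)^(n-a-b) (y/x)^b = (1/t)^m (1/x)^n t^j x^a y^b`. -/

namespace Pool.Agent.H4.SX

open Finset Polynomial Pool.Agent.H37.TE Pool.Agent.H98.TE Pool.Agent.H4.TP

variable {n m : ℕ} {F : ℤ[X][X][X]}

theorem PK_zero (K : Type) [Field K] [CharZero K] (n m : ℕ) (F : ℤ[X][X][X]) :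
    (PK K n m F).map (MvPolynomial.eval (0 : Fin 2 → K)) =
      (topq n m F).map (algebraMap ℚ K) := by
  unfold PK topq
  rw [Polynomial.map_sum, Polynomial.map_sum]
  refine sum_congr rfl fun b hb => ?_
  rw [mem_range, Nat.lt_succ_iff] at hb
  rw [Polynomial.map_mul, Polynomial.map_pow, Polynomial.map_X, Polynomial.map_C, map_sum,
    Polynomial.map_mul, Polynomial.map_pow, Polynomial.map_X, Polynomial.map_C]
  congr 2
  rw [sum_eq_single (n - b)]
  · rw [map_sum, sum_eq_single m]
    · have h1 : n - (n - b) - b = 0 := by omega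
      rw [h1]
      simp
    · intro j hj hjm
      rw [mem_range] at hj
      have h1 : m - j ≠ 0 := by omega
      simp [h1]
    · intro h
      exact absurd (mem_range.2 (Nat.lt_succ_self m)) h
  · intro a ha hab
    rw [mem_range] at ha
    have h1 : n - a - b ≠ 0 := by omega
    rw [map_sum]
    refine sum_eq_zero fun j _ => ?_
    simp [h1]
  · intro h
    exact absurd (mem_range.2 (by omega)) h

theorem PK_eval (H : DegF n m F) {K : Type} [Field K] (σ : K →+* ℝ) {t x y : ℝ} (ht : t ≠ 0)
    (hx : x ≠ 0) :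
    (((PK K n m F).map (MvPolynomial.map σ)).map (MvPolynomial.eval ![1 / t, 1 / x])).eval
      (y / x) = (1 / t) ^ m * (1 / x) ^ n * ev3 t x y F := by
  unfold PK
  rw [Pool.Agent.H98.TE.ev3_sum H, Polynomial.map_sum, Polynomial.map_sum, eval_finsetSum, mul_sum]
  refine sum_congr rfl fun b hb => ?_
  rw [mem_range, Nat.lt_succ_iff] at hb
  rw [Polynomial.map_mul, Polynomial.map_pow, Polynomial.map_X, Polynomial.map_C,
    Polynomial.map_mul, Polynomial.map_pow, Polynomial.map_X, Polynomial.map_C, eval_mul, eval_C,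
    eval_pow, eval_X, map_sum, map_sum, mul_sum, sum_mul]
  refine sum_congr rfl fun a ha => ?_
  rw [mem_range] at ha
  rw [map_sum, map_sum, mul_sum, sum_mul]
  refine sum_congr rfl fun j hj => ?_
  rw [mem_range, Nat.lt_succ_iff] at hj
  simp only [map_mul, map_pow, MvPolynomial.map_X, MvPolynomial.eval_X, Matrix.cons_val_zero, Matrix.cons_val_one, map_intCast]
  obtain ⟨m', rfl⟩ : ∃ m', m = j + m' := ⟨m - j, by omega⟩
  obtain ⟨n', hn'⟩ : ∃ n', n = a + b + n' := ⟨n - a - b, by omega⟩
  have e1 : j + m' - j = m' := by omega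
  have e2 : n - a - b = n' := by omega
  rw [e1, e2, hn']
  rw [_root_.div_pow, _root_.div_pow, _root_.div_pow, _root_.div_pow,
    _root_.div_pow, pow_add, pow_add, pow_add, one_pow, one_pow, one_pow, one_pow]
  field_simp
  ring

end Pool.Agent.H4.SX
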