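import Pool.Agent.H4.SX.AXW
import Pool.Agent.H4.TP.RES
import Pool.Agent.H4.TP.BND
import Pool.Agent.H4.TP.MID

/-! # [H4 SX WDH] One window: the points with `|y| ≤ |x|`

`near_root (topm n m F)` and `top_small` (`Pool/Agent/H98/TE/TRP.lean`) as in `middle_half` (`H98/TE/MID.lean`, with
`A + u = a`): for `a` large and `|x|^Q ≥ a^j ≥ a` (`j ≥ n ≥ 1`) put `ρ = max (1/a) (1/|x|)`; `ρ^Q ≤ 1/a`, so `ρ` is
as small as we like for `a ≥ A0`; `top_small` gives `|topm(y/x)| ≤ C2 ρ`, `near_root` a root `θ` of `topm` with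
`|y/x - θ| ≤ C1 C2 ρ ≤ c0 θ`, `c0 θ` from `aux_window` (`topm_simple h.sq` for the simple roots, `hR` for the degree).
For each of the finitely many roots `θ`: `G_θ` from `aux_window`, `elim3` (as in `common_bound`, `H4/TP/RES.lean`:
`irr_frac h.irr`, `h.lead`, `h.lead'`, `res_td` there is private: `aux_window` gives `TD D D D G`; for `F` use
`D = n + m`) gives `R_θ, R'_θ ≠ 0`. `R = ∏_θ R_θ`, `R' = ∏_θ R'_θ`. -/

namespace Pool.Agent.H4.SX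

open Finset Polynomial Pool.Agent.H37.TE Pool.Agent.H98.TE Pool.Agent.H4.TP

private theorem wtd_mono {D D' : ℕ} (h : D ≤ D') {G : ℤ[X][X][X]} (hG : TD D D D G) :
    TD D' D' D' G :=
  ⟨hG.1.trans h, fun k => ⟨(hG.2 k).1.trans h, fun j => ((hG.2 k).2 j).trans h⟩⟩

private theorem wtd_F {n m : ℕ} {F : ℤ[X][X][X]} (H : DegF n m F) :
    TD (n + m) (n + m) (n + m) F := by
  refine ⟨H.nat.trans (by omega), fun k => ⟨?_, fun j => (H.deg j k).trans (by omega)⟩⟩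
  rw [natDegree_le_iff_coeff_eq_zero]
  intro a ha
  exact H.tot a k (by omega)

/-- one window near one root -/
private theorem win_root {n m : ℕ} {F : ℤ[X][X][X]} (hn : 3 ≤ n) (h : HypG n m F)
    (hR : HR n m F) (Q j : ℕ) (hQ : 1 ≤ Q) (hj : n ≤ j) (θ : ℝ) :
    ∃ (R R' : ℤ[X][X]) (A0 : ℕ) (c0 : ℝ), R ≠ 0 ∧ R' ≠ 0 ∧ 0 < c0 ∧
      ((topm n m F).eval θ = 0 → ∀ a : ℕ, A0 ≤ a → ∀ x y : ℤ,
      ev3 (a : ℤ) x y F = 0 → |y| ≤ |x| → (a : ℤ) ^ j ≤ |x| ^ Q → |x| ^ Q ≤ (a : ℤ) ^ (j + 1) →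
      |(y : ℝ) / x - θ| ≤ c0 → evalEval (a : ℤ) x R = 0 ∧ evalEval (a : ℤ) y R' = 0) := by
  by_cases hθ : (topm n m F).eval θ = 0
  · obtain ⟨G, D, A0, c0, hc0, hG0, hGT, hGn, hG⟩ := aux_window h.H (by omega) θ hθ
      ((topm_simple h.sq).2 θ hθ) (hR θ hθ) Q j hQ hj
    have hcn : F.coeff n ≠ 0 := by
      intro h0
      have hl := h.lead
      rw [h0, coeff_zero] at hl
      exact hl rfl
    have hnat : F.natDegree = n := natDegree_eq_of_le_of_coeff_ne_zero h.H.nat hcn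
    have hirr := irr_frac h.irr (by omega)
    have hsw : 1 ≤ (Bivariate.swap F).natDegree := by
      refine (by omega : 1 ≤ n).trans (le_natDegree_of_ne_zero ?_)
      intro h0
      apply h.lead'
      have h1 := swap_coeff F n 0
      rw [h0, coeff_zero] at h1
      exact h1.symm
    obtain ⟨R, R', hR, hR', -, -, hRz⟩ := elim3
      (wtd_mono (show n + m ≤ n + m + D by omega) (wtd_F h.H))
      (wtd_mono (show D ≤ n + m + D by omega) hGT) hirr (by omega) hsw hG0 (by omega)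
    exact ⟨R, R', A0, c0, hR, hR', hc0, fun _ a ha x y h1 h2 h3 h4 h5 =>
      hRz a x y h1 (hG a ha x y h1 h2 h3 h4 h5)⟩
  · exact ⟨1, 1, 0, 1, one_ne_zero, one_ne_zero, one_pos, fun h' => absurd h' hθ⟩

theorem window_half {n m : ℕ} {F : ℤ[X][X][X]} (hn : 3 ≤ n) (h : HypG n m F) (hR : HR n m F)
    (Q j : ℕ) (hQ : 1 ≤ Q) (hj : n ≤ j) :
    ∃ (R R' : ℤ[X][X]) (A0 : ℕ), R ≠ 0 ∧ R' ≠ 0 ∧ ∀ a : ℕ, A0 ≤ a → ∀ x y : ℤ,
      ev3 (a : ℤ) x y F = 0 → |y| ≤ |x| → (a : ℤ) ^ j ≤ |x| ^ Q → |x| ^ Q ≤ (a : ℤ) ^ (j + 1) →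
      evalEval (a : ℤ) x R = 0 ∧ evalEval (a : ℤ) y R' = 0 := by
  classical
  obtain ⟨C1, δ0, hC1, hδ0, h1⟩ := near_root _ (topm_simple h.sq).1 (topm_simple h.sq).2
  obtain ⟨C2, hC2, h2⟩ := top_small h.H
  choose Rf Rf' AA c0 hRf hRf' hc0 h3 using win_root hn h hR Q j hQ hj
  obtain ⟨S, hS⟩ : ∃ S, S = (topm n m F).roots.toFinset := ⟨_, rfl⟩
  rw [← hS] at h1
  obtain ⟨K, hK⟩ : ∃ K : ℝ, K = C2 / δ0 + ∑ θ ∈ S, C1 * C2 / c0 θ + 1 := ⟨_, rfl⟩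
  have hsum : 0 ≤ ∑ θ ∈ S, C1 * C2 / c0 θ := sum_nonneg fun θ _ => by
    have := hc0 θ
    positivity
  have hq0 : 0 ≤ C2 / δ0 := by positivity
  have hK1 : 1 ≤ K := by
    rw [hK]
    linarith
  refine ⟨∏ θ ∈ S, Rf θ, ∏ θ ∈ S, Rf' θ, S.sup AA + ⌈K ^ Q⌉₊ + 1,
    prod_ne_zero_iff.2 fun θ _ => hRf θ, prod_ne_zero_iff.2 fun θ _ => hRf' θ,
    fun a ha x y hev hyx hxj hxj' => ?_⟩
  have ha1 : (1 : ℝ) ≤ a := by exact_mod_cast (by omega : 1 ≤ a)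
  have hKa : K ^ Q ≤ a := by
    refine (Nat.le_ceil _).trans ?_
    exact_mod_cast (by omega : ⌈K ^ Q⌉₊ ≤ a)
  have hxjr : (a : ℝ) ^ j ≤ |(x : ℝ)| ^ Q := by exact_mod_cast hxj
  obtain ⟨s, hs⟩ : ∃ s : ℝ, s = min (a : ℝ) |(x : ℝ)| := ⟨_, rfl⟩
  have hs0 : 0 ≤ s := by
    rw [hs]
    exact le_min (by linarith) (abs_nonneg _)
  have hsa : s ≤ a := by rw [hs]; exact min_le_left _ _
  have hsx : s ≤ |(x : ℝ)| := by rw [hs]; exact min_le_right _ _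
  have hsQ : (a : ℝ) ≤ s ^ Q := by
    rw [hs]
    rcases le_total (a : ℝ) |(x : ℝ)| with h4 | h4
    · rw [min_eq_left h4]
      exact le_self_pow₀ ha1 (by omega)
    · rw [min_eq_right h4]
      exact (le_self_pow₀ ha1 (by omega : j ≠ 0)).trans hxjr
  have hKs : K ≤ s :=
    (pow_le_pow_iff_left₀ (by linarith) hs0 (by omega : Q ≠ 0)).1 (hKa.trans hsQ)
  have hs1 : 1 ≤ s := hK1.trans hKs
  have hsp : 0 < s := by linarith
  have hx0 : (x : ℝ) ≠ 0 := abs_pos.1 (by linarith)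
  have hyr : |(y : ℝ)| ≤ |(x : ℝ)| := by exact_mod_cast hyx
  have hevr : ev3 ((a : ℤ) : ℝ) (x : ℝ) (y : ℝ) F = 0 := by
    rw [ev3_cast h.H, hev, Int.cast_zero]
  have h5 := h2 ((a : ℤ) : ℝ) x y (1 / s) (by push_cast; linarith) hx0 hyr hevr
    (one_div_le_one_div_of_le hsp (by push_cast; exact hsa))
    (one_div_le_one_div_of_le hsp hsx) (by rw [div_le_one hsp]; exact hs1)
  have h6 : |(y : ℝ) / x| ≤ 1 := by
    rw [abs_div]
    exact (div_le_one (abs_pos.2 hx0)).2 hyr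
  have h7 : |(topm n m F).eval ((y : ℝ) / x)| < δ0 := by
    refine lt_of_le_of_lt h5 ?_
    rw [mul_one_div, div_lt_iff₀ hsp]
    have : C2 / δ0 < s := by
      rw [hK] at hKs
      linarith
    rw [div_lt_iff₀ hδ0] at this
    linarith
  obtain ⟨θ, hθ, h8⟩ := h1 _ h6 h7
  have h9 : |(y : ℝ) / x - θ| ≤ c0 θ := by
    refine (h8.trans (mul_le_mul_of_nonneg_left h5 hC1)).trans ?_
    have h9 : C1 * C2 / c0 θ ≤ ∑ θ ∈ S, C1 * C2 / c0 θ :=
      single_le_sum (f := fun θ => C1 * C2 / c0 θ) (fun θ _ => by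
        have := hc0 θ
        positivity) hθ
    have h10 : C1 * C2 / c0 θ ≤ s := by
      rw [hK] at hKs
      linarith
    rw [div_le_iff₀ (hc0 θ)] at h10
    rw [mul_one_div, ← mul_div_assoc, div_le_iff₀ hsp]
    linarith
  have hroot : (topm n m F).eval θ = 0 := by
    rw [hS, Multiset.mem_toFinset] at hθ
    exact (mem_roots (topm_simple h.sq).1).1 hθ
  have hAA : AA θ ≤ S.sup AA := Finset.le_sup hθ
  obtain ⟨h10, h11⟩ := h3 θ hroot a (by omega) x y hev hyx hxj hxj' h9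
  constructor
  · rw [← coe_evalEvalRingHom, map_prod]
    exact prod_eq_zero hθ h10
  · rw [← coe_evalEvalRingHom, map_prod]
    exact prod_eq_zero hθ h11

end Pool.Agent.H4.SX
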